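import Pool.Agent.Lib.NP2.Props

/-!
# Row CONE: the volume of a cone
-/

set_option autoImplicit false

open MeasureTheory Set Module
open scoped RealInnerProductSpace Topology Pointwise
open Pool.Agent.LogMinkowski Pool.Agent.BM

namespace Pool.Agent.NP2

theorem integral_one_sub_div {c : ℝ} (hc : 0 < c) (d : ℕ) :
    ∫ x in (0 : ℝ)..c, (1 - x / c) ^ d = c / (d + 1) := by
  have h := intervalIntegral.integral_comp_sub_div (a := 0) (b := c) (fun x : ℝ => x ^ d) hc.ne' 1
  rw [h, div_self hc.ne', sub_self, zero_div, sub_zero, integral_pow]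
  simp
  field_simp

theorem cone : CONE := by
  intro Y _ _ _ _ _ μ _ B hB o ho
  set c := o.1 with hc
  set F : Set (ℝ × Y) := (fun y => ((0 : ℝ), y)) '' B with hF
  have hFc : IsCompact F := hB.image (by fun_prop)
  set C := coneOver o F with hC
  have hCc : IsCompact C := isCompact_coneOver o hFc
  rw [Measure.prod_apply hCc.measurableSet]
  have hsl : ∀ x : ℝ, μ (Prod.mk x ⁻¹' C) =
      (Icc (0 : ℝ) c).indicator (fun x => ENNReal.ofReal ((1 - x / c) ^ finrank ℝ Y) * μ B) x := by
    intro x
    by_cases hx : x ∈ Icc (0 : ℝ) c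
    · rw [indicator_of_mem hx]
      have hq : 0 ≤ 1 - x / c := by
        rw [sub_nonneg, div_le_one ho]; exact hx.2
      have he : Prod.mk x ⁻¹' C = (fun y => y + (x / c) • o.2) '' ((1 - x / c) • B) := by
        ext y
        constructor
        · rintro ⟨⟨r, f⟩, ⟨hr, ⟨b, hb, rfl⟩⟩, hy⟩
          have h1 : r * c = x := by
            have := congrArg Prod.fst hy
            simpa using this
          have h2 : r = x / c := by rw [← h1]; field_simp
          have h3 : r • o.2 + (1 - r) • b = y := by
            have := congrArg Prod.snd hy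
            simpa using this
          refine ⟨(1 - x / c) • b, smul_mem_smul_set hb, ?_⟩
          show (1 - x / c) • b + (x / c) • o.2 = y
          rw [← h3, h2, add_comm]
        · rintro ⟨_, ⟨b, hb, rfl⟩, rfl⟩
          refine ⟨(x / c, (0, b)), ⟨⟨div_nonneg hx.1 ho.le, by linarith⟩, ⟨b, hb, rfl⟩⟩, ?_⟩
          show (x / c) • o + (1 - x / c) • ((0 : ℝ), b) = (x, (1 - x / c) • b + (x / c) • o.2)
          ext
          · simp only [Prod.fst_add, Prod.smul_fst, smul_eq_mul, mul_zero, add_zero]
            rw [← hc]; field_simp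
          · simp only [Prod.snd_add, Prod.smul_snd]
            rw [add_comm]
      rw [he, image_add_right, measure_preimage_add_right, Measure.addHaar_smul,
        abs_of_nonneg (pow_nonneg hq _)]
    · rw [indicator_of_notMem hx]
      have he : Prod.mk x ⁻¹' C = ∅ := by
        rw [eq_empty_iff_forall_notMem]
        rintro y ⟨⟨r, f⟩, ⟨hr, ⟨b, hb, rfl⟩⟩, hy⟩
        apply hx
        have h1 : r * c = x := by
          have := congrArg Prod.fst hy
          simpa using this
        rw [← h1]
        exact ⟨mul_nonneg hr.1 ho.le, mul_le_of_le_one_left ho.le hr.2⟩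
      rw [he, measure_empty]
  simp_rw [hsl]
  rw [lintegral_indicator measurableSet_Icc, lintegral_mul_const' _ _ hB.measure_lt_top.ne]
  congr 1
  rw [← integral_one_sub_div ho, intervalIntegral.integral_of_le ho.le, ← integral_Icc_eq_integral_Ioc,
    ofReal_integral_eq_lintegral_ofReal]
  · exact (Continuous.integrableOn_Icc (by fun_prop))
  · refine (ae_restrict_iff' measurableSet_Icc).2 (Filter.Eventually.of_forall fun x hx => ?_)
    refine pow_nonneg ?_ _
    rw [sub_nonneg, div_le_one ho]; exact hx.2

end Pool.Agent.NP2
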