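import Pool.Agent.Lib.NP2.Pos
import Pool.Agent.Lib.NP2.Cone
import Pool.Agent.Lib.MP_b05ae9_pr.Vol

/-!
# The volume of the base of a cone
-/

set_option autoImplicit false

open MeasureTheory Set Module
open scoped RealInnerProductSpace Topology Nat Pointwise
open Pool.Agent.LogMinkowski Pool.Agent.BM

namespace Pool.Agent.NP2

/-- the base -/
def BS (r d : ℕ) (t : ℝ) (s : Fin (r + 1) → ℝ) : Set ((Fin r → ℝ) × (Fin d → ℝ)) :=
  {p | (∀ i, 0 ≤ p.1 i) ∧ ∑ i, p.1 i ≤ t ∧ (∀ j, 0 ≤ p.2 j) ∧ ∑ j, p.2 j ≤ affT t s p.1}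

theorem continuous_affT {r : ℕ} (t : ℝ) (s : Fin (r + 1) → ℝ) : Continuous (affT t s) := by
  unfold affT
  fun_prop

theorem isClosed_BS (r d : ℕ) (t : ℝ) (s : Fin (r + 1) → ℝ) : IsClosed (BS r d t s) := by
  have : BS r d t s = (⋂ i, {p : (Fin r → ℝ) × (Fin d → ℝ) | 0 ≤ p.1 i}) ∩
      ({p | ∑ i, p.1 i ≤ t} ∩ ((⋂ j, {p : (Fin r → ℝ) × (Fin d → ℝ) | 0 ≤ p.2 j}) ∩
        {p | ∑ j, p.2 j ≤ affT t s p.1})) := by
    ext p; simp [BS]
  rw [this]
  have hc := continuous_affT t s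
  refine (isClosed_iInter fun i => isClosed_le continuous_const (by fun_prop)).inter
    ((isClosed_le (by fun_prop) continuous_const).inter
      ((isClosed_iInter fun j => isClosed_le continuous_const (by fun_prop)).inter
        (isClosed_le (by fun_prop) (hc.comp continuous_fst))))

theorem volume_z (d : ℕ) (c : ℝ) :
    volume {z : Fin d → ℝ | (∀ j, 0 ≤ z j) ∧ ∑ j, z j ≤ c} = ENNReal.ofReal (pp d c / d !) := by
  unfold pp
  split_ifs with h
  · exact Pool.Agent.B05.Vol.volume_T d c h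
  · have : {z : Fin d → ℝ | (∀ j, 0 ≤ z j) ∧ ∑ j, z j ≤ c} = ∅ := by
      rw [eq_empty_iff_forall_notMem]
      rintro z ⟨h1, h2⟩
      exact h ((Finset.sum_nonneg fun j _ => h1 j).trans h2)
    rw [this]
    simp

theorem affT_smul {r : ℕ} (t : ℝ) (s : Fin (r + 1) → ℝ) (σ : Fin r → ℝ) :
    affT t s (t • σ) = t * aff s σ := by
  unfold affT aff
  simp only [Pi.smul_apply, smul_eq_mul]
  have h1 : ∑ i, t * σ i = t * ∑ i, σ i := (Finset.mul_sum _ _ _).symm
  have h2 : ∑ i, s (Fin.succ i) * (t * σ i) = t * ∑ i, s (Fin.succ i) * σ i := by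
    rw [Finset.mul_sum]
    exact Finset.sum_congr rfl fun i _ => by ring
  rw [h1, h2]
  ring

theorem pp_mul (q : ℕ) {t : ℝ} (ht : 0 < t) (x : ℝ) : pp q (t * x) = t ^ q * pp q x := by
  unfold pp
  by_cases hx : 0 ≤ x
  · rw [if_pos hx, if_pos (mul_nonneg ht.le hx), mul_pow]
  · rw [if_neg hx, if_neg, mul_zero]
    intro h
    exact hx (nonneg_of_mul_nonneg_right h ht)

theorem smul_Sx (r : ℕ) {t : ℝ} (ht : 0 < t) :
    t • Sx r = {σ | (∀ i, 0 ≤ σ i) ∧ ∑ i, σ i ≤ t} := by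
  ext σ
  rw [mem_smul_set_iff_inv_smul_mem₀ ht.ne']
  unfold Sx
  simp only [mem_ofPred_eq, Pi.smul_apply, smul_eq_mul]
  rw [← Finset.mul_sum]
  constructor
  · rintro ⟨h1, h2⟩
    refine ⟨fun i => ?_, ?_⟩
    · have := mul_nonneg ht.le (h1 i)
      rwa [mul_inv_cancel_left₀ ht.ne'] at this
    · rwa [inv_mul_le_iff₀ ht, mul_one] at h2
  · rintro ⟨h1, h2⟩
    refine ⟨fun i => mul_nonneg (inv_nonneg.2 ht.le) (h1 i), ?_⟩
    rwa [inv_mul_le_iff₀ ht, mul_one]

theorem isCompact_tS (r : ℕ) {t : ℝ} (ht : 0 < t) :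
    IsCompact {σ : Fin r → ℝ | (∀ i, 0 ≤ σ i) ∧ ∑ i, σ i ≤ t} := by
  rw [← smul_Sx r ht]
  exact (isCompact_Sx r).smul t

theorem volume_BS (r d : ℕ) {t : ℝ} (ht : 0 < t) (s : Fin (r + 1) → ℝ) :
    volume (BS r d t s) = ENNReal.ofReal (t ^ (r + d) * Mom d s / d !) := by
  have hcl := isClosed_BS r d t s
  set Q : Set (Fin r → ℝ) := {σ | (∀ i, 0 ≤ σ i) ∧ ∑ i, σ i ≤ t} with hQ
  have hQm : MeasurableSet Q := (isCompact_tS r ht).isClosed.measurableSet
  rw [Measure.volume_eq_prod, Measure.prod_apply hcl.measurableSet]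
  have h1 : ∀ x : Fin r → ℝ, volume (Prod.mk x ⁻¹' BS r d t s) =
      Q.indicator (fun x => ENNReal.ofReal (pp d (affT t s x) / d !)) x := by
    intro x
    by_cases hx : x ∈ Q
    · rw [indicator_of_mem hx, ← volume_z]
      congr 1
      ext z
      exact ⟨fun h => h.2.2, fun h => ⟨hx.1, hx.2, h⟩⟩
    · rw [indicator_of_notMem hx]
      have : Prod.mk x ⁻¹' BS r d t s = ∅ := by
        rw [eq_empty_iff_forall_notMem]
        intro z hz
        exact hx ⟨hz.1, hz.2.1⟩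
      rw [this, measure_empty]
  simp_rw [h1]
  rw [lintegral_indicator hQm]
  have h2 := Measure.setIntegral_comp_smul_of_pos (volume : Measure (Fin r → ℝ))
    (fun x => pp d (affT t s x)) (Sx r) ht
  rw [smul_Sx r ht] at h2
  simp only [affT_smul, pp_mul d ht] at h2
  rw [integral_const_mul] at h2
  have h3 : ∫ x in Q, pp d (affT t s x) = t ^ (r + d) * Mom d s := by
    have h4 : (t ^ finrank ℝ (Fin r → ℝ))⁻¹ • ∫ x in Q, pp d (affT t s x) = t ^ d * Mom d s :=
      h2.symm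
    rw [finrank_fin_fun, smul_eq_mul, inv_mul_eq_iff_eq_mul₀ (pow_pos ht r).ne'] at h4
    rw [h4, pow_add]
    ring
  have hint : IntegrableOn (fun x => pp d (affT t s x)) Q := by
    have h5 : IntegrableOn (fun σ => |affT t s σ| ^ d) Q :=
      ((continuous_affT t s).abs.pow d).continuousOn.integrableOn_compact (isCompact_tS r ht)
    refine Integrable.mono' h5
      ((measurable_pp d).comp (continuous_affT t s).measurable).aestronglyMeasurable
      (Filter.Eventually.of_forall fun σ => ?_)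
    rw [Real.norm_eq_abs, abs_of_nonneg (pp_nonneg _ _)]
    unfold pp
    split_ifs with h
    · rw [abs_of_nonneg h]
    · positivity
  rw [← h3, ← integral_div, ofReal_integral_eq_lintegral_ofReal (hint.div_const _)
    (Filter.Eventually.of_forall fun x => div_nonneg (pp_nonneg _ _) (by positivity))]

end Pool.Agent.NP2
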