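import Pool.Agent.Lib.NP2.Props

/-!
# NP2, row BWD: the criterion is sufficient (helper94)
-/

set_option autoImplicit false

open MeasureTheory Set Module
open scoped RealInnerProductSpace Nat
open Pool.Agent.LogMinkowski Pool.Agent.BM

namespace Pool.Agent.NP2

theorem bwd (h1 : HPOLY) (h2 : SOLVE) (h3 : VOL) (h4 : FACE) : BWD := by
  classical
  intro k m u v a b ρ dat V W hV hW hcrit
  obtain ⟨D, hD, hvol⟩ := h3 k m u v a b ρ dat
  obtain ⟨C, t, β, γ, ht0, hβ, hγ, htβ, hCt, hij, hVf, hWf⟩ := h2 k m ρ V W D hD hV hW hcrit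
  have hapos := dat.apos
  have hbpos := dat.bpos
  set h : Fin (k + 2) → ℝ := fun i => β i / a i with hh
  set h' : Fin (m + 2) → ℝ := fun j => γ j / b j with hh'
  have eh : ∀ i, a i * h i = β i := fun i => mul_div_cancel₀ _ (hapos i).ne'
  have eh' : ∀ j, b j * h' j = γ j := fun j => mul_div_cancel₀ _ (hbpos j).ne'
  have hpos : ∀ i, 0 < h i := fun i => div_pos (hβ i) (hapos i)
  have hpos' : ∀ j, 0 < h' j := fun j => div_pos (hγ j) (hbpos j)
  have et : t = ∑ i, a i * h i := by simp only [eh]; exact htβ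
  have eC : C * t = ∑ j, b j * h' j + ∑ i, ρ i * (a i * h i) := by simp only [eh, eh']; exact hCt
  obtain ⟨v1, v2⟩ := hvol h h' hpos hpos' t C et eC
  obtain ⟨hbd, f1, f2⟩ := h4 k m u v a b ρ dat h h' hpos hpos' t C et eC hij
  set P : Set (E (k + m + 2)) :=
    {y | ∀ i : Fin ((k + 2) + (m + 2)), ⟪Fin.append u v i, y⟫ ≤ Fin.append h h' i} with hP
  have hPP : ∀ y : E (k + m + 2),
      (∀ i : Fin ((k + 2) + (m + 2)), ⟪Fin.append u v i, y⟫ ≤ Fin.append h h' i) ↔
        (∀ i, ⟪u i, y⟫ ≤ h i) ∧ ∀ j, ⟪v j, y⟫ ≤ h' j := by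
    intro y
    constructor
    · intro hy
      refine ⟨fun i => ?_, fun j => ?_⟩
      · have := hy (Fin.castAdd (m + 2) i)
        rwa [Fin.append_left, Fin.append_left] at this
      · have := hy (Fin.natAdd (k + 2) j)
        rwa [Fin.append_right, Fin.append_right] at this
    · rintro ⟨y1, y2⟩ i
      refine Fin.addCases (fun i => ?_) (fun j => ?_) i
      · rw [Fin.append_left, Fin.append_left]
        exact y1 i
      · rw [Fin.append_right, Fin.append_right]
        exact y2 j
  have hPH : P = PH u v h h' := by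
    ext y
    exact hPP y
  have hcne : ∀ (i : Fin (k + 2)) (j : Fin (m + 2)),
      (Fin.castAdd (m + 2) i : Fin ((k + 2) + (m + 2))) ≠ Fin.natAdd (k + 2) j := by
    intro i j he
    have := congrArg Fin.val he
    simp only [Fin.val_castAdd, Fin.val_natAdd] at this
    omega
  obtain ⟨p1, p2, p3⟩ := h1 (k + m + 2) ((k + 2) + (m + 2)) (by omega) (Fin.append u v)
    (Fin.append h h') dat.unit dat.inj (by
      intro i
      refine Fin.addCases (fun i => ?_) (fun j => ?_) i
      · rw [Fin.append_left]
        exact hpos i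
      · rw [Fin.append_right]
        exact hpos' j) (by rw [← hP, hPH]; exact hbd) (by
      intro i
      refine Fin.addCases (fun f => ?_) (fun f => ?_) i
      · obtain ⟨y, y1, y2, y3⟩ := f1 f
        refine ⟨y, by rw [Fin.append_left, Fin.append_left]; exact y1, fun j => ?_⟩
        refine Fin.addCases (fun j => ?_) (fun j => ?_) j
        · intro hj
          rw [Fin.append_left, Fin.append_left]
          exact y2 j fun h0 => hj (by rw [h0])
        · intro _
          rw [Fin.append_right, Fin.append_right]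
          exact y3 j
      · obtain ⟨y, y1, y2, y3⟩ := f2 f
        refine ⟨y, by rw [Fin.append_right, Fin.append_right]; exact y1, fun j => ?_⟩
        refine Fin.addCases (fun j => ?_) (fun j => ?_) j
        · intro _
          rw [Fin.append_left, Fin.append_left]
          exact y2 j
        · intro hj
          rw [Fin.append_right, Fin.append_right]
          exact y3 j fun h0 => hj (by rw [h0]))
  rw [← hP] at p1 p2 p3
  refine ⟨P, ⟨p1, p2, fun i => ?_⟩⟩
  rw [coneVolume_eq p1, p3 i]
  refine Fin.addCases (fun f => ?_) (fun f => ?_) i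
  · rw [Fin.append_left, Fin.append_left, Fin.append_left]
    have e1 : {y : E (k + m + 2) | (∀ j : Fin ((k + 2) + (m + 2)), ⟪Fin.append u v j, y⟫ ≤
        Fin.append h h' j) ∧ ⟪u f, y⟫ = h f} =
        PH u v h h' ∩ {y | ⟪u f, y⟫ = h f} := by
      ext y
      exact and_congr_left fun _ => hPP y
    rw [e1]
    have e2 := v1 f
    rw [eh f, ← hVf f] at e2
    exact mul_left_cancel₀ hD.ne' e2
  · rw [Fin.append_right, Fin.append_right, Fin.append_right]
    have e1 : {y : E (k + m + 2) | (∀ j : Fin ((k + 2) + (m + 2)), ⟪Fin.append u v j, y⟫ ≤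
        Fin.append h h' j) ∧ ⟪v f, y⟫ = h' f} =
        PH u v h h' ∩ {y | ⟪v f, y⟫ = h' f} := by
      ext y
      exact and_congr_left fun _ => hPP y
    rw [e1]
    have e2 := v2 f
    rw [eh' f, ← hWf f] at e2
    exact mul_left_cancel₀ hD.ne' e2

end Pool.Agent.NP2
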