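import Pool.Agent.Lib.NP2.Props

/-!
# Row CHART: the chart (helper54)
-/

set_option autoImplicit false

open MeasureTheory Set Module
open scoped RealInnerProductSpace Nat
open Pool.Agent.LogMinkowski Pool.Agent.BM

namespace Pool.Agent.NP2

namespace ChartR

variable {k m : ℕ}

/-- the linear part -/
noncomputable def L0 (u : Fin (k + 2) → E (k + m + 2)) (v : Fin (m + 2) → E (k + m + 2))
    (a : Fin (k + 2) → ℝ) (b : Fin (m + 2) → ℝ) :
    E (k + m + 2) →ₗ[ℝ] (Fin (k + 1) → ℝ) × (Fin (m + 1) → ℝ) where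
  toFun y := (fun i => -(a i.succ * ⟪u i.succ, y⟫), fun j => -(b j.succ * ⟪v j.succ, y⟫))
  map_add' x y := by
    ext i
    · simp only [inner_add_right, Prod.fst_add, Pi.add_apply]
      ring
    · simp only [inner_add_right, Prod.snd_add, Pi.add_apply]
      ring
  map_smul' r y := by
    ext i
    · simp only [inner_smul_right, Prod.smul_fst, Pi.smul_apply, smul_eq_mul, RingHom.id_apply]
      ring
    · simp only [inner_smul_right, Prod.smul_snd, Pi.smul_apply, smul_eq_mul, RingHom.id_apply]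
      ring

/-- the translation -/
def p0 (a : Fin (k + 2) → ℝ) (b : Fin (m + 2) → ℝ) (h : Fin (k + 2) → ℝ) (h' : Fin (m + 2) → ℝ) :
    (Fin (k + 1) → ℝ) × (Fin (m + 1) → ℝ) :=
  (fun i => a i.succ * h i.succ, fun j => b j.succ * h' j.succ)

theorem psi_eq (u : Fin (k + 2) → E (k + m + 2)) (v : Fin (m + 2) → E (k + m + 2))
    (a : Fin (k + 2) → ℝ) (b : Fin (m + 2) → ℝ) (h : Fin (k + 2) → ℝ) (h' : Fin (m + 2) → ℝ)
    (y : E (k + m + 2)) : Psi u v a b h h' y = L0 u v a b y + p0 a b h h' := by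
  ext i
  · simp only [Psi, L0, p0, LinearMap.coe_mk, AddHom.coe_mk, Prod.fst_add, Pi.add_apply]
    ring
  · simp only [Psi, L0, p0, LinearMap.coe_mk, AddHom.coe_mk, Prod.snd_add, Pi.add_apply]
    ring

theorem relu' {u : Fin (k + 2) → E (k + m + 2)} {v : Fin (m + 2) → E (k + m + 2)}
    {a : Fin (k + 2) → ℝ} {b : Fin (m + 2) → ℝ} {ρ : Fin (k + 2) → ℝ} (H : Dat k m u v a b ρ)
    (y : E (k + m + 2)) : a 0 * ⟪u 0, y⟫ + ∑ i : Fin (k + 1), a i.succ * ⟪u i.succ, y⟫ = 0 := by
  have h1 := congrArg (fun z => ⟪z, y⟫) H.relu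
  simp only [sum_inner, inner_smul_left, inner_zero_left, RCLike.conj_to_real] at h1
  rw [Fin.sum_univ_succ] at h1
  exact h1

theorem relv' {u : Fin (k + 2) → E (k + m + 2)} {v : Fin (m + 2) → E (k + m + 2)}
    {a : Fin (k + 2) → ℝ} {b : Fin (m + 2) → ℝ} {ρ : Fin (k + 2) → ℝ} (H : Dat k m u v a b ρ)
    (y : E (k + m + 2)) : b 0 * ⟪v 0, y⟫ + ∑ j : Fin (m + 1), b j.succ * ⟪v j.succ, y⟫ +
      (ρ 0 * a 0 * ⟪u 0, y⟫ + ∑ i : Fin (k + 1), ρ i.succ * a i.succ * ⟪u i.succ, y⟫) = 0 := by
  have h1 := congrArg (fun z => ⟪z, y⟫) H.relv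
  simp only [inner_add_left, sum_inner, inner_smul_left, inner_zero_left, RCLike.conj_to_real]
    at h1
  rw [Fin.sum_univ_succ (fun j => b j * ⟪v j, y⟫),
    Fin.sum_univ_succ (fun i => ρ i * a i * ⟪u i, y⟫)] at h1
  exact h1

theorem inj {u : Fin (k + 2) → E (k + m + 2)} {v : Fin (m + 2) → E (k + m + 2)}
    {a : Fin (k + 2) → ℝ} {b : Fin (m + 2) → ℝ} {ρ : Fin (k + 2) → ℝ} (H : Dat k m u v a b ρ) :
    Function.Injective (L0 u v a b) := by
  rw [← LinearMap.ker_eq_bot, LinearMap.ker_eq_bot']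
  intro y hy
  have h1 : ∀ i : Fin (k + 1), ⟪u i.succ, y⟫ = 0 := fun i => by
    have h2 := congrFun (congrArg Prod.fst hy) i
    simp only [L0, LinearMap.coe_mk, AddHom.coe_mk, Prod.fst_zero, Pi.zero_apply, neg_eq_zero,
      mul_eq_zero] at h2
    exact h2.resolve_left (H.apos _).ne'
  have h2 : ∀ j : Fin (m + 1), ⟪v j.succ, y⟫ = 0 := fun j => by
    have h2 := congrFun (congrArg Prod.snd hy) j
    simp only [L0, LinearMap.coe_mk, AddHom.coe_mk, Prod.snd_zero, Pi.zero_apply, neg_eq_zero,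
      mul_eq_zero] at h2
    exact h2.resolve_left (H.bpos _).ne'
  have h3 : ⟪u 0, y⟫ = 0 := by
    have h4 := relu' H y
    simp only [h1, mul_zero, Finset.sum_const_zero, add_zero, mul_eq_zero] at h4
    exact h4.resolve_left (H.apos _).ne'
  have h4 : ⟪v 0, y⟫ = 0 := by
    have h5 := relv' H y
    simp only [h1, h2, h3, mul_zero, Finset.sum_const_zero, add_zero, mul_eq_zero] at h5
    exact h5.resolve_left (H.bpos _).ne'
  have h5 : ∀ x ∈ range (Fin.append u v), ⟪x, y⟫ = 0 := by
    rintro _ ⟨i, rfl⟩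
    refine Fin.addCases (fun i => ?_) (fun j => ?_) i
    · rw [Fin.append_left]
      refine Fin.cases h3 h1 i
    · rw [Fin.append_right]
      refine Fin.cases h4 h2 j
  have h6 : ∀ x ∈ Submodule.span ℝ (range (Fin.append u v)), ⟪x, y⟫ = 0 := by
    intro x hx
    induction hx using Submodule.span_induction with
    | mem x hx => exact h5 x hx
    | zero => exact inner_zero_left _
    | add x z _ _ hx hz => rw [inner_add_left, hx, hz, add_zero]
    | smul r x _ hx => rw [inner_smul_left, hx, mul_zero]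
  have h7 : ⟪y, y⟫ = 0 := h6 y (by rw [H.span]; trivial)
  exact inner_self_eq_zero.1 h7

end ChartR

open ChartR in
theorem chart : CHART := by
  intro k m u v a b ρ H
  have hfin : finrank ℝ (E (k + m + 2)) = finrank ℝ ((Fin (k + 1) → ℝ) × (Fin (m + 1) → ℝ)) := by
    rw [Module.finrank_prod, finrank_fin_fun, finrank_fin_fun]
    simp only [E, finrank_euclideanSpace_fin]
    omega
  set e0 : E (k + m + 2) ≃ₗ[ℝ] (Fin (k + 1) → ℝ) × (Fin (m + 1) → ℝ) :=
    LinearMap.linearEquivOfInjective (L0 u v a b) (inj H) hfin with he0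
  have he0' : ∀ y, e0 y = L0 u v a b y := fun y => rfl
  set e := e0.toContinuousLinearEquiv with he
  have he' : ∀ y, e y = L0 u v a b y := fun y => rfl
  have hV : (volume : Measure ((Fin (k + 1) → ℝ) × (Fin (m + 1) → ℝ))).IsAddHaarMeasure :=
    Measure.prod.instIsAddHaarMeasure _ _
  set μ' : Measure (E (k + m + 2)) :=
    (volume : Measure ((Fin (k + 1) → ℝ) × (Fin (m + 1) → ℝ))).map e.symm with hμ'
  have hμi : μ'.IsAddHaarMeasure := e.symm.isAddHaarMeasure_map _
  obtain ⟨c, hc, hμ⟩ : ∃ c : NNReal, 0 < c ∧ μ' = c • (volume : Measure (E (k + m + 2))) :=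
    ⟨_, Measure.addHaarScalarFactor_pos_of_isAddHaarMeasure μ' volume,
      Measure.isAddLeftInvariant_eq_smul μ' volume⟩
  refine ⟨c, by exact_mod_cast hc, fun h h' => ⟨?_, ?_, ?_, ?_⟩⟩
  · have h1 : Psi u v a b h h' = (Equiv.addRight (p0 a b h h')) ∘ e0 := by
      funext y
      rw [psi_eq]
      rfl
    rw [h1]
    exact (Equiv.addRight (p0 a b h h')).bijective.comp e0.bijective
  · intro o y r
    rw [psi_eq, psi_eq, psi_eq, map_add, map_smul, map_smul, smul_add, smul_add]
    have h1 : p0 a b h h' = r • p0 a b h h' + (1 - r) • p0 a b h h' := by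
      rw [← add_smul]
      simp
    nth_rewrite 1 [h1]
    abel
  · intro A
    have h1 : Psi u v a b h h' '' A = (fun x => x + p0 a b h h') '' (e '' A) := by
      rw [image_image]
      refine image_congr fun y _ => ?_
      rw [psi_eq]
      rfl
    rw [h1, image_add_right, measure_preimage_add_right]
    have h2 : μ' A = volume (e '' A) := by
      rw [hμ']
      have h3 : (e.symm : (Fin (k + 1) → ℝ) × (Fin (m + 1) → ℝ) → E (k + m + 2)) =
          e.symm.toHomeomorph.toMeasurableEquiv := rfl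
      rw [h3, MeasurableEquiv.map_apply]
      congr 1
      ext x
      simp only [Homeomorph.toMeasurableEquiv_coe, mem_preimage, mem_image]
      constructor
      · intro hx
        exact ⟨e.symm x, hx, e.apply_symm_apply x⟩
      · rintro ⟨y, hy, rfl⟩
        change e.symm (e y) ∈ A
        rwa [e.symm_apply_apply]
    rw [← h2, hμ, ENNReal.ofReal_coe_nnreal]
    rfl
  · intro y
    have h1 := relu' H y
    have h2 := relv' H y
    have h3 : ∑ i, (Psi u v a b h h' y).1 i = ∑ i : Fin (k + 1), a i.succ * h i.succ -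
        ∑ i : Fin (k + 1), a i.succ * ⟪u i.succ, y⟫ := by
      rw [← Finset.sum_sub_distrib]
      refine Finset.sum_congr rfl fun i _ => ?_
      simp only [Psi]
      ring
    have h4 : ∑ j, (Psi u v a b h h' y).2 j = ∑ j : Fin (m + 1), b j.succ * h' j.succ -
        ∑ j : Fin (m + 1), b j.succ * ⟪v j.succ, y⟫ := by
      rw [← Finset.sum_sub_distrib]
      refine Finset.sum_congr rfl fun i _ => ?_
      simp only [Psi]
      ring
    have h5 : ∑ i : Fin (k + 1), ρ i.succ * (Psi u v a b h h' y).1 i =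
        ∑ i : Fin (k + 1), ρ i.succ * (a i.succ * h i.succ) -
        ∑ i : Fin (k + 1), ρ i.succ * a i.succ * ⟪u i.succ, y⟫ := by
      rw [← Finset.sum_sub_distrib]
      refine Finset.sum_congr rfl fun i _ => ?_
      simp only [Psi]
      ring
    rw [h3, h4, h5, Fin.sum_univ_succ (fun i => a i * h i), Fin.sum_univ_succ (fun j => b j * h' j),
      Fin.sum_univ_succ (fun i => ρ i * (a i * h i))]
    constructor
    · linear_combination -h1
    · linear_combination -h2 + ρ 0 * h1

end Pool.Agent.NP2
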