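import Pool.Agent.Lib.NP2.Props

/-!
# NP2, row FACE: `PH` is bounded and its facets have interior points (helper94)
-/

set_option autoImplicit false

open MeasureTheory Set Module
open scoped RealInnerProductSpace Nat
open Pool.Agent.LogMinkowski Pool.Agent.BM

namespace Pool.Agent.NP2

variable {k m : ℕ} {u : Fin (k + 2) → E (k + m + 2)} {v : Fin (m + 2) → E (k + m + 2)}
  {a : Fin (k + 2) → ℝ} {b : Fin (m + 2) → ℝ} {ρ : Fin (k + 2) → ℝ}

/-- the linear part of the chart -/
noncomputable def linPsi (u : Fin (k + 2) → E (k + m + 2)) (v : Fin (m + 2) → E (k + m + 2))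
    (a : Fin (k + 2) → ℝ) (b : Fin (m + 2) → ℝ) :
    E (k + m + 2) →ₗ[ℝ] (Fin (k + 1) → ℝ) × (Fin (m + 1) → ℝ) where
  toFun y := (fun i => a i.succ * (-⟪u i.succ, y⟫), fun j => b j.succ * (-⟪v j.succ, y⟫))
  map_add' y y' := by
    refine Prod.ext ?_ ?_
    · funext i
      simp only [inner_add_right, Prod.fst_add, Pi.add_apply]
      ring
    · funext i
      simp only [inner_add_right, Prod.snd_add, Pi.add_apply]
      ring
  map_smul' c y := by
    refine Prod.ext ?_ ?_
    · funext i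
      simp only [inner_smul_right, Prod.smul_fst, Pi.smul_apply, smul_eq_mul, RingHom.id_apply]
      ring
    · funext i
      simp only [inner_smul_right, Prod.smul_snd, Pi.smul_apply, smul_eq_mul, RingHom.id_apply]
      ring

theorem Psi_eq_add (h : Fin (k + 2) → ℝ) (h' : Fin (m + 2) → ℝ) (y : E (k + m + 2)) :
    Psi u v a b h h' y = Psi u v a b h h' 0 + linPsi u v a b y := by
  refine Prod.ext ?_ ?_
  · funext i
    simp only [Psi, linPsi, LinearMap.coe_mk, AddHom.coe_mk, Prod.fst_add, Pi.add_apply,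
      inner_zero_right]
    ring
  · funext i
    simp only [Psi, linPsi, LinearMap.coe_mk, AddHom.coe_mk, Prod.snd_add, Pi.add_apply,
      inner_zero_right]
    ring

theorem face_pts (hc : CHART) (hp : PTS) : FACE := by
  classical
  intro k m u v a b ρ dat h h' hh hh' t C ht hC hij
  obtain ⟨D, hD, hchart⟩ := hc k m u v a b ρ dat
  obtain ⟨hbij, -, -, hco⟩ := hchart h h'
  have hapos := dat.apos
  have hbpos := dat.bpos
  have ht0 : 0 < t := by
    rw [ht]
    exact Finset.sum_pos (fun i _ => mul_pos (hapos i) (hh i)) ⟨0, Finset.mem_univ _⟩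
  -- the coordinates
  have hco1 : ∀ y, a 0 * (h 0 - ⟪u 0, y⟫) = t - ∑ i, (Psi u v a b h h' y).1 i := by
    intro y
    rw [(hco y).1, ht]
  have hco2 : ∀ y, b 0 * (h' 0 - ⟪v 0, y⟫) = C * t -
        ρ 0 * (t - ∑ i, (Psi u v a b h h' y).1 i) -
        ∑ i, ρ i.succ * (Psi u v a b h h' y).1 i - ∑ j, (Psi u v a b h h' y).2 j := by
    intro y
    rw [(hco y).2, hC, ht]
  -- points with given coordinates
  have hpt : ∀ (x : Fin (k + 2) → ℝ) (z : Fin (m + 2) → ℝ), ∑ i, x i = t →
      ∑ j, z j = ∑ i, (C - ρ i) * x i →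
      ∃ y, (∀ i, a i * (h i - ⟪u i, y⟫) = x i) ∧ ∀ j, b j * (h' j - ⟪v j, y⟫) = z j := by
    intro x z hx hz
    obtain ⟨y, hy⟩ := hbij.2 (fun i => x i.succ, fun j => z j.succ)
    have e1 : ∀ i, (Psi u v a b h h' y).1 i = x i.succ := fun i => by rw [hy]
    have e2 : ∀ j, (Psi u v a b h h' y).2 j = z j.succ := fun j => by rw [hy]
    have hx' := hx
    rw [Fin.sum_univ_succ] at hx'
    have hz' := hz
    rw [Fin.sum_univ_succ] at hz'
    refine ⟨y, fun i => ?_, fun j => ?_⟩
    · refine Fin.cases ?_ (fun i => ?_) i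
      · rw [hco1 y]
        simp only [e1]
        linarith
      · rw [← e1 i]
        rfl
    · refine Fin.cases ?_ (fun j => ?_) j
      · rw [hco2 y]
        simp only [e1, e2]
        have e3 : ∑ i, (C - ρ i) * x i = C * t - ρ 0 * x 0 - ∑ i : Fin (k + 1), ρ i.succ * x i.succ := by
          simp only [sub_mul, Finset.sum_sub_distrib]
          rw [← Finset.mul_sum, hx, Fin.sum_univ_succ (fun i => ρ i * x i)]
          ring
        have e4 : t - ∑ i : Fin (k + 1), x i.succ = x 0 := by linarith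
        rw [e4]
        linarith
      · rw [← e2 j]
        rfl
  have hlt : ∀ {w c q : ℝ}, 0 < w → 0 < w * (c - q) → q < c := by
    intro w c q hw hwc
    have := (pos_iff_pos_of_mul_pos hwc).1 hw
    linarith
  have heq : ∀ {w c q : ℝ}, 0 < w → w * (c - q) = 0 → q = c := by
    intro w c q hw hwc
    rcases mul_eq_zero.1 hwc with h0 | h0
    · exact absurd h0 hw.ne'
    · linarith
  obtain ⟨i0, j0, hne0, hi0, hj0⟩ := hij
  refine ⟨?_, ?_, ?_⟩
  · -- boundedness
    have hinj : Function.Injective (linPsi u v a b) := by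
      intro y y' hyy
      apply hbij.1
      rw [Psi_eq_add, Psi_eq_add h h' y', hyy]
    have hfr : finrank ℝ (E (k + m + 2)) = finrank ℝ ((Fin (k + 1) → ℝ) × (Fin (m + 1) → ℝ)) := by
      rw [finrank_euclideanSpace_fin, Module.finrank_prod, Module.finrank_fin_fun,
        Module.finrank_fin_fun]
      omega
    set e : E (k + m + 2) ≃ₗ[ℝ] (Fin (k + 1) → ℝ) × (Fin (m + 1) → ℝ) :=
      LinearEquiv.ofInjectiveOfFinrankEq (linPsi u v a b) hinj hfr with he
    have hee : ∀ y, e y = linPsi u v a b y := fun y => rfl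
    set M : ℝ := |C * t| + |ρ 0| * t + ∑ i : Fin (k + 1), |ρ i.succ| * t with hM
    set B : Set ((Fin (k + 1) → ℝ) × (Fin (m + 1) → ℝ)) :=
      Icc (0, 0) (fun _ => t, fun _ => M) with hB
    have hBc : IsCompact B := by
      rw [hB, ← Icc_prod_Icc]
      exact isCompact_Icc.prod isCompact_Icc
    have hcont : Continuous (fun p : (Fin (k + 1) → ℝ) × (Fin (m + 1) → ℝ) =>
        e.symm (p - Psi u v a b h h' 0)) := by
      have h1 : Continuous (e.symm : (Fin (k + 1) → ℝ) × (Fin (m + 1) → ℝ) →ₗ[ℝ] E (k + m + 2)) :=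
        LinearMap.continuous_of_finiteDimensional _
      have h2 : Continuous (fun p : (Fin (k + 1) → ℝ) × (Fin (m + 1) → ℝ) =>
        p - Psi u v a b h h' 0) := by fun_prop
      exact h1.comp h2
    refine (hBc.image hcont).isBounded.subset ?_
    intro y hy
    refine ⟨Psi u v a b h h' y, ?_, ?_⟩
    · have n1 : ∀ i, 0 ≤ (Psi u v a b h h' y).1 i := fun i =>
        mul_nonneg (hapos _).le (sub_nonneg.2 (hy.1 _))
      have n2 : ∀ j, 0 ≤ (Psi u v a b h h' y).2 j := fun j =>
        mul_nonneg (hbpos _).le (sub_nonneg.2 (hy.2 _))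
      have n3 : 0 ≤ t - ∑ i, (Psi u v a b h h' y).1 i := by
        rw [← hco1 y]
        exact mul_nonneg (hapos _).le (sub_nonneg.2 (hy.1 _))
      have n4 : ∀ i, (Psi u v a b h h' y).1 i ≤ t := by
        intro i
        have := Finset.single_le_sum (fun i _ => n1 i) (Finset.mem_univ i)
        linarith
      have n5 : 0 ≤ b 0 * (h' 0 - ⟪v 0, y⟫) := mul_nonneg (hbpos _).le (sub_nonneg.2 (hy.2 _))
      rw [hco2 y] at n5
      have n6 : -(ρ 0 * (t - ∑ i, (Psi u v a b h h' y).1 i)) ≤ |ρ 0| * t := by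
        have n7 : ∑ i, (Psi u v a b h h' y).1 i ≥ 0 := Finset.sum_nonneg fun i _ => n1 i
        have n8 : -(ρ 0) ≤ |ρ 0| := neg_le_abs _
        nlinarith [abs_nonneg (ρ 0)]
      have n9 : -(∑ i, ρ i.succ * (Psi u v a b h h' y).1 i) ≤ ∑ i : Fin (k + 1), |ρ i.succ| * t := by
        rw [← Finset.sum_neg_distrib]
        refine Finset.sum_le_sum fun i _ => ?_
        have n8 : -(ρ i.succ) ≤ |ρ i.succ| := neg_le_abs _
        have := n1 i
        have := n4 i
        nlinarith [abs_nonneg (ρ i.succ)]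
      have n10 : ∑ j, (Psi u v a b h h' y).2 j ≤ M := by
        rw [hM]
        have := le_abs_self (C * t)
        linarith
      rw [hB]
      refine ⟨⟨fun i => n1 i, fun j => n2 j⟩, ⟨fun i => n4 i, fun j => ?_⟩⟩
      have := Finset.single_le_sum (fun i _ => n2 i) (Finset.mem_univ j)
      exact this.trans n10
    · change e.symm (Psi u v a b h h' y - Psi u v a b h h' 0) = y
      rw [LinearEquiv.symm_apply_eq, hee, Psi_eq_add h h' y]
      abel
  · intro f
    obtain ⟨j, hjf, hj⟩ : ∃ j, j ≠ f ∧ ρ j < C := by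
      by_cases hf : j0 = f
      · exact ⟨i0, by rw [← hf]; exact hne0, hi0⟩
      · exact ⟨j0, hf, hj0⟩
    obtain ⟨x, ⟨hx1, hx2, hx3, hx4⟩, -⟩ := hp k (fun i => C - ρ i) t ht0 f j hjf (sub_pos.2 hj)
    set S : ℝ := ∑ i, (C - ρ i) * x i with hS
    obtain ⟨y, hy1, hy2⟩ := hpt x (fun _ => S / (m + 2)) hx3 (by
      rw [Finset.sum_const, Finset.card_univ, Fintype.card_fin, nsmul_eq_mul]
      push_cast
      field_simp
      exact hS)
    refine ⟨y, heq (hapos f) (by rw [hy1 f, hx1]), fun i hi => hlt (hapos i) ?_,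
      fun j => hlt (hbpos j) ?_⟩
    · rw [hy1 i]
      exact hx2 i hi
    · rw [hy2 j]
      positivity
  · intro f
    obtain ⟨x, -, x', hx1, hx2, hx3⟩ := hp k (fun i => C - ρ i) t ht0 i0 j0 hne0.symm
      (sub_pos.2 hj0)
    set S : ℝ := ∑ i, (C - ρ i) * x' i with hS
    obtain ⟨y, hy1, hy2⟩ := hpt x' (fun j => if j = f then 0 else S / (m + 1)) hx2 (by
      rw [Finset.sum_ite, Finset.sum_const_zero, zero_add, Finset.sum_const,
        Finset.filter_ne' Finset.univ f, Finset.card_erase_of_mem (Finset.mem_univ _),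
        Finset.card_univ, Fintype.card_fin, nsmul_eq_mul]
      push_cast
      field_simp
      exact hS)
    refine ⟨y, heq (hbpos f) (by rw [hy2 f, if_pos rfl]), fun i => hlt (hapos i) ?_,
      fun j hj => hlt (hbpos j) ?_⟩
    · rw [hy1 i]
      exact hx1 i
    · rw [hy2 j, if_neg hj]
      positivity

end Pool.Agent.NP2
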