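import Pool.Agent.Lib.NP2.Props

/-!
# Polytopes with `n + 2` facets: data in general position or not, and the statement (helper60)
-/

set_option autoImplicit false

open MeasureTheory Set Module
open scoped RealInnerProductSpace Nat
open Pool.Agent.LogMinkowski Pool.Agent.BM

namespace Pool.Agent.NP2

noncomputable section

/-- For a set `S` of indices and values `s i`, `i ∈ S`: the integral of the `q`-th power of the
positive part of the affine function which takes the values `s i`, `i ∈ S` (in increasing order of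
`i`), at the vertices `0, e_1, ..., e_(|S| - 1)` of the simplex `σ ≥ 0`, `∑ σ ≤ 1`, of
`ℝ ^ (|S| - 1)`. -/
def MomS {N : ℕ} (q : ℕ) (S : Finset (Fin N)) (s : Fin N → ℝ) : ℝ :=
  if h : S.card = (S.card - 1) + 1 then Mom q (fun i => s (S.orderEmbOfFin h i)) else 0

theorem momS_eq {N r : ℕ} (q : ℕ) (S : Finset (Fin N)) (s : Fin N → ℝ) (h : S.card = r + 1) :
    MomS q S s = Mom q (fun i => s (S.orderEmbOfFin h i)) := by
  obtain rfl : r = S.card - 1 := by omega
  rw [MomS, dif_pos h]

theorem momS_erase {N r : ℕ} (q : ℕ) (S : Finset (Fin N)) (s : Fin N → ℝ) (h : S.card = r + 2)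
    (f : Fin (r + 2)) :
    MomS q (S.erase (S.orderEmbOfFin h f)) s =
      Mom q (fun j : Fin (r + 1) => s (S.orderEmbOfFin h (f.succAbove j))) := by
  have hc : (S.erase (S.orderEmbOfFin h f)).card = r + 1 := by
    rw [Finset.card_erase_of_mem (S.orderEmbOfFin_mem h f), h]; rfl
  rw [momS_eq q _ s hc]
  have := Finset.orderEmbOfFin_unique (s := S.erase (S.orderEmbOfFin h f)) hc
    (f := fun j : Fin (r + 1) => S.orderEmbOfFin h (f.succAbove j)) (by
      intro x
      rw [Finset.mem_erase]
      refine ⟨?_, S.orderEmbOfFin_mem h _⟩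
      intro hx
      exact Fin.succAbove_ne f x ((S.orderEmbOfFin h).injective hx)) (by
      intro x y hxy
      exact (S.orderEmbOfFin h).strictMono ((Fin.strictMono_succAbove f) hxy))
  congr 1
  ext j
  rw [← this]

theorem sum_orderEmb {N r : ℕ} {M : Type*} [AddCommMonoid M] (S : Finset (Fin N))
    (h : S.card = r) (F : Fin N → M) : ∑ i, F (S.orderEmbOfFin h i) = ∑ i ∈ S, F i := by
  conv_rhs => rw [← Finset.map_orderEmbOfFin_univ S h]
  rw [Finset.sum_map]
  rfl

/-- the criterion, in terms of the set `S` of the indices with `0 < a i` -/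
theorem crit_iff {N k m : ℕ} (S T : Finset (Fin N)) (hS : S.card = k + 2) (hT : T.card = m + 2)
    (ρ V : Fin N → ℝ) :
    Crit k m (fun i => ρ (S.orderEmbOfFin hS i)) (fun i => V (S.orderEmbOfFin hS i))
      (∑ j, V (T.orderEmbOfFin hT j)) ↔
    ∃ C : ℝ, (∃ i ∈ S, ∃ j ∈ S, i ≠ j ∧ ρ i < C ∧ ρ j < C) ∧
      ∑ j ∈ T, V j = (m + 1) * MomS m S (fun i => C - ρ i) *
        ∑ i ∈ S, V i * (C - ρ i) / MomS (m + 1) (S.erase i) (fun i => C - ρ i) := by
  rw [Crit]
  refine exists_congr fun C => and_congr ?_ ?_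
  · constructor
    · rintro ⟨i, j, hij, h1, h2⟩
      exact ⟨_, S.orderEmbOfFin_mem hS i, _, S.orderEmbOfFin_mem hS j,
        fun h => hij ((S.orderEmbOfFin hS).injective h), h1, h2⟩
    · rintro ⟨i, hi, j, hj, hij, h1, h2⟩
      have hr := S.range_orderEmbOfFin hS
      obtain ⟨i', rfl⟩ : i ∈ range (S.orderEmbOfFin hS) := by rw [hr]; exact hi
      obtain ⟨j', rfl⟩ : j ∈ range (S.orderEmbOfFin hS) := by rw [hr]; exact hj
      exact ⟨i', j', fun h => hij (by rw [h]), h1, h2⟩
  · rw [sum_orderEmb T hT V, momS_eq m S _ hS,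
      ← sum_orderEmb S hS (fun i => V i * (C - ρ i) /
        MomS (m + 1) (S.erase i) (fun i => C - ρ i))]
    simp only [momS_erase (m + 1) S (fun i => C - ρ i) hS]

theorem realises_append {n N p q : ℕ} (S T : Finset (Fin N)) (hS : S.card = p) (hT : T.card = q)
    (hST : ∀ i, i ∈ S ∨ i ∈ T) (u : Fin N → E n) (V : Fin N → ℝ) (P : Set (E n)) :
    Realises u V P ↔ Realises
      (Fin.append (fun i => u (S.orderEmbOfFin hS i)) (fun i => u (T.orderEmbOfFin hT i)))
      (Fin.append (fun i => V (S.orderEmbOfFin hS i)) (fun i => V (T.orderEmbOfFin hT i))) P := by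
  have key : ∀ i : Fin N, ∃ j : Fin (p + q),
      Fin.append (fun i => S.orderEmbOfFin hS i) (fun i => T.orderEmbOfFin hT i) j = i := by
    intro i
    rcases hST i with hi | hi
    · obtain ⟨i', rfl⟩ : i ∈ range (S.orderEmbOfFin hS) := by
        rw [S.range_orderEmbOfFin hS]; exact hi
      exact ⟨Fin.castAdd q i', by rw [Fin.append_left]⟩
    · obtain ⟨i', rfl⟩ : i ∈ range (T.orderEmbOfFin hT) := by
        rw [T.range_orderEmbOfFin hT]; exact hi
      exact ⟨Fin.natAdd p i', by rw [Fin.append_right]⟩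
  have hu : ∀ j, Fin.append (fun i => u (S.orderEmbOfFin hS i))
      (fun i => u (T.orderEmbOfFin hT i)) j =
      u (Fin.append (fun i => S.orderEmbOfFin hS i) (fun i => T.orderEmbOfFin hT i) j) := by
    intro j
    refine Fin.addCases (fun i => ?_) (fun i => ?_) j
    · rw [Fin.append_left, Fin.append_left]
    · rw [Fin.append_right, Fin.append_right]
  have hV : ∀ j, Fin.append (fun i => V (S.orderEmbOfFin hS i))
      (fun i => V (T.orderEmbOfFin hT i)) j =
      V (Fin.append (fun i => S.orderEmbOfFin hS i) (fun i => T.orderEmbOfFin hT i) j) := by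
    intro j
    refine Fin.addCases (fun i => ?_) (fun i => ?_) j
    · rw [Fin.append_left, Fin.append_left]
    · rw [Fin.append_right, Fin.append_right]
  constructor
  · intro h
    refine ⟨h.polytope, fun v => ?_, fun j => ?_⟩
    · rw [h.facets v]
      constructor
      · rintro ⟨i, rfl⟩
        obtain ⟨j, rfl⟩ := key i
        exact ⟨j, hu j⟩
      · rintro ⟨j, rfl⟩
        exact ⟨_, (hu j).symm⟩
    · rw [hu j, hV j]
      exact h.volumes _
  · intro h
    refine ⟨h.polytope, fun v => ?_, fun i => ?_⟩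
    · rw [h.facets v]
      constructor
      · rintro ⟨j, rfl⟩
        exact ⟨_, (hu j).symm⟩
      · rintro ⟨i, rfl⟩
        obtain ⟨j, rfl⟩ := key i
        exact ⟨j, hu j⟩
    · obtain ⟨j, rfl⟩ := key i
      have := h.volumes j
      rwa [hu j, hV j] at this

/-- the set of the indices with `0 < a i` has at least two elements, its complement too -/
theorem two_le {n N : ℕ} (u : Fin N → E n) (hunit : ∀ i, ‖u i‖ = 1)
    (hspan : Submodule.span ℝ (range u) = ⊤) (c a : Fin N → ℝ) (hc : ∀ i, 0 < c i)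
    (hcu : ∑ i, c i • u i = 0) (ha : ∀ i, 0 ≤ a i) (hne : ∃ i, 0 < a i)
    (hau : ∑ i, a i • u i = 0)
    (hS : Submodule.span ℝ (u '' {i | 0 < a i}) ≠ ⊤) :
    2 ≤ (Finset.univ.filter fun i => 0 < a i).card ∧
      2 ≤ (Finset.univ.filter fun i => a i = 0).card := by
  have hu0 : ∀ i, u i ≠ 0 := fun i h => by
    have := hunit i
    rw [h, norm_zero] at this
    exact zero_ne_one this
  constructor
  · by_contra hlt
    obtain ⟨i, hi⟩ := hne
    have hcard : (Finset.univ.filter fun i => 0 < a i).card ≤ 1 := by omega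
    rw [Finset.card_le_one] at hcard
    have hz : ∀ j, j ≠ i → a j = 0 := by
      intro j hj
      by_contra hne'
      exact hj (hcard j (by simp [lt_of_le_of_ne (ha j) (Ne.symm hne')]) i (by simp [hi]))
    rw [Finset.sum_eq_single i (fun j _ hj => by rw [hz j hj, zero_smul]) (by simp)] at hau
    rcases smul_eq_zero.mp hau with h | h
    · exact hi.ne' h
    · exact hu0 i h
  · by_contra hlt
    have hcard : (Finset.univ.filter fun i => a i = 0).card ≤ 1 := by omega
    rw [Finset.card_le_one] at hcard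
    apply hS
    rw [eq_top_iff, ← hspan, Submodule.span_le]
    rintro _ ⟨j, rfl⟩
    rcases (ha j).lt_or_eq with hj | hj
    · exact Submodule.subset_span ⟨j, hj, rfl⟩
    · have hz : ∀ i, i ≠ j → 0 < a i := by
        intro i hi
        refine lt_of_le_of_ne (ha i) fun h => hi ?_
        exact hcard i (by simp [h.symm]) j (by simp [hj.symm])
      have h1 : c j • u j = - ∑ i ∈ Finset.univ.erase j, c i • u i := by
        rw [← Finset.add_sum_erase _ _ (Finset.mem_univ j)] at hcu
        exact eq_neg_of_add_eq_zero_left hcu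
      have h2 : u j = (c j)⁻¹ • (- ∑ i ∈ Finset.univ.erase j, c i • u i) := by
        rw [← h1, smul_smul, inv_mul_cancel₀ (hc j).ne', one_smul]
      rw [h2]
      refine Submodule.smul_mem _ _ (Submodule.neg_mem _ (Submodule.sum_mem _ fun i hi => ?_))
      exact Submodule.smul_mem _ _ (Submodule.subset_span
        ⟨i, hz i (Finset.ne_of_mem_erase hi), rfl⟩)

theorem dat_of {k m : ℕ} (u : Fin (k + m + 2 + 2) → E (k + m + 2)) (hunit : ∀ i, ‖u i‖ = 1)
    (hinj : Function.Injective u) (hspan : Submodule.span ℝ (range u) = ⊤)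
    (c a : Fin (k + m + 2 + 2) → ℝ) (hc : ∀ i, 0 < c i) (hcu : ∑ i, c i • u i = 0)
    (ha : ∀ i, 0 ≤ a i) (hau : ∑ i, a i • u i = 0) (S T : Finset (Fin (k + m + 2 + 2)))
    (hSd : S = Finset.univ.filter fun i => 0 < a i)
    (hTd : T = Finset.univ.filter fun i => a i = 0) (hS : S.card = k + 2) (hT : T.card = m + 2) :
    Dat k m (fun i => u (S.orderEmbOfFin hS i)) (fun i => u (T.orderEmbOfFin hT i))
      (fun i => a (S.orderEmbOfFin hS i)) (fun i => c (T.orderEmbOfFin hT i))
      (fun i => c (S.orderEmbOfFin hS i) / a (S.orderEmbOfFin hS i)) := by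
  have hdisj : ∀ i, i ∈ S → i ∈ T → False := by
    intro i h1 h2
    rw [hSd, Finset.mem_filter] at h1
    rw [hTd, Finset.mem_filter] at h2
    exact h1.2.ne' h2.2
  have hST : ∀ i, i ∈ S ∨ i ∈ T := by
    intro i
    rw [hSd, hTd, Finset.mem_filter, Finset.mem_filter]
    rcases (ha i).lt_or_eq with h | h
    · exact Or.inl ⟨Finset.mem_univ _, h⟩
    · exact Or.inr ⟨Finset.mem_univ _, h.symm⟩
  have hunion : Finset.univ = S ∪ T := by
    ext i; simp [hST i]
  have hD : Disjoint S T := Finset.disjoint_left.mpr fun i => hdisj i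
  have hSp : ∀ i ∈ S, 0 < a i := fun i hi => by
    rw [hSd, Finset.mem_filter] at hi; exact hi.2
  have hTz : ∀ i ∈ T, a i = 0 := fun i hi => by
    rw [hTd, Finset.mem_filter] at hi; exact hi.2
  have hrange : range (Fin.append (fun i => u (S.orderEmbOfFin hS i))
      (fun i => u (T.orderEmbOfFin hT i))) = range u := by
    ext x
    constructor
    · rintro ⟨j, rfl⟩
      refine Fin.addCases (fun i => ?_) (fun i => ?_) j
      · rw [Fin.append_left]; exact ⟨_, rfl⟩
      · rw [Fin.append_right]; exact ⟨_, rfl⟩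
    · rintro ⟨i, rfl⟩
      rcases hST i with hi | hi
      · obtain ⟨i', rfl⟩ : i ∈ range (S.orderEmbOfFin hS) := by
          rw [S.range_orderEmbOfFin hS]; exact hi
        exact ⟨Fin.castAdd _ i', by rw [Fin.append_left]⟩
      · obtain ⟨i', rfl⟩ : i ∈ range (T.orderEmbOfFin hT) := by
          rw [T.range_orderEmbOfFin hT]; exact hi
        exact ⟨Fin.natAdd _ i', by rw [Fin.append_right]⟩
  refine ⟨fun j => ?_, fun i j => ?_, fun i => hSp _ (S.orderEmbOfFin_mem hS i),
    fun j => hc _, ?_, ?_, ?_⟩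
  · refine Fin.addCases (fun i => ?_) (fun i => ?_) j
    · rw [Fin.append_left]; exact hunit _
    · rw [Fin.append_right]; exact hunit _
  · refine Fin.addCases (fun i' => ?_) (fun i' => ?_) i <;>
    refine Fin.addCases (fun j' => ?_) (fun j' => ?_) j <;> intro h
    · rw [Fin.append_left, Fin.append_left] at h
      rw [(S.orderEmbOfFin hS).injective (hinj h)]
    · rw [Fin.append_left, Fin.append_right] at h
      exact (hdisj _ (S.orderEmbOfFin_mem hS i') (by
        rw [hinj h]; exact T.orderEmbOfFin_mem hT j')).elim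
    · rw [Fin.append_left, Fin.append_right] at h
      exact (hdisj _ (S.orderEmbOfFin_mem hS j') (by
        rw [← hinj h]; exact T.orderEmbOfFin_mem hT i')).elim
    · rw [Fin.append_right, Fin.append_right] at h
      rw [(T.orderEmbOfFin hT).injective (hinj h)]
  · rw [sum_orderEmb S hS fun i => a i • u i]
    rw [hunion, Finset.sum_union hD] at hau
    rw [← hau]
    rw [Finset.sum_eq_zero (s := T) (fun i hi => by rw [hTz i hi, zero_smul]), add_zero]
  · rw [sum_orderEmb T hT fun i => c i • u i,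
      sum_orderEmb S hS fun i => (c i / a i * a i) • u i]
    rw [hunion, Finset.sum_union hD] at hcu
    have h3 : ∑ i ∈ S, (c i / a i * a i) • u i = ∑ i ∈ S, c i • u i :=
      Finset.sum_congr rfl fun i hi => by rw [div_mul_cancel₀ _ (hSp i hi).ne']
    rw [h3, ← hcu]
    exact add_comm _ _
  · rw [hrange, hspan]

/-- the statement, from the two directions for data in the normal form -/
theorem final (h1 : FWD) (h2 : BWD) {n q : ℕ} (u : Fin (n + 2) → E n) (hunit : ∀ i, ‖u i‖ = 1)
    (hinj : Function.Injective u) (hspan : Submodule.span ℝ (range u) = ⊤)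
    (c a V : Fin (n + 2) → ℝ) (hc : ∀ i, 0 < c i) (hcu : ∑ i, c i • u i = 0)
    (ha : ∀ i, 0 ≤ a i) (hne : ∃ i, 0 < a i) (hau : ∑ i, a i • u i = 0)
    (hS : Submodule.span ℝ (u '' {i | 0 < a i}) ≠ ⊤)
    (hq : (Finset.univ.filter fun i => a i = 0).card = q + 1) (hV : ∀ i, 0 < V i) :
    (∃ P, Realises u V P) ↔ ∃ C : ℝ,
      (∃ i j, i ≠ j ∧ 0 < a i ∧ 0 < a j ∧ c i / a i < C ∧ c j / a j < C) ∧
      ∑ j with a j = 0, V j =
        q * MomS (q - 1) (Finset.univ.filter fun i => 0 < a i) (fun i => C - c i / a i) *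
          ∑ i with 0 < a i, V i * (C - c i / a i) /
            MomS q ((Finset.univ.filter fun i => 0 < a i).erase i) (fun i => C - c i / a i) := by
  obtain ⟨hk, hm⟩ := two_le u hunit hspan c a hc hcu ha hne hau hS
  have hcard : (Finset.univ.filter fun i => 0 < a i).card +
      (Finset.univ.filter fun i => a i = 0).card = n + 2 := by
    have := Finset.card_filter_add_card_filter_not (s := (Finset.univ : Finset (Fin (n + 2))))
      (fun i => 0 < a i)
    rw [Finset.card_univ, Fintype.card_fin] at this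
    have h3 : (Finset.univ.filter fun i => ¬ 0 < a i) = Finset.univ.filter fun i => a i = 0 := by
      ext i
      simp only [Finset.mem_filter, Finset.mem_univ, true_and, not_lt]
      exact ⟨fun h => le_antisymm h (ha i), fun h => h.le⟩
    rw [← h3]
    exact this
  obtain ⟨k, hk'⟩ := Nat.exists_eq_add_of_le' hk
  obtain ⟨m, hm'⟩ := Nat.exists_eq_add_of_le' hm
  obtain rfl : n = k + m + 2 := by omega
  obtain rfl : q = m + 1 := by omega
  set S := Finset.univ.filter fun i => 0 < a i with hSd
  set T := Finset.univ.filter fun i => a i = 0 with hTd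
  have hdat := dat_of u hunit hinj hspan c a hc hcu ha hau S T hSd hTd hk' hm'
  have hST : ∀ i, i ∈ S ∨ i ∈ T := by
    intro i
    rw [hSd, hTd, Finset.mem_filter, Finset.mem_filter]
    rcases (ha i).lt_or_eq with h | h
    · exact Or.inl ⟨Finset.mem_univ _, h⟩
    · exact Or.inr ⟨Finset.mem_univ _, h.symm⟩
  have hiff : (∃ P, Realises u V P) ↔
      Crit k m (fun i => c (S.orderEmbOfFin hk' i) / a (S.orderEmbOfFin hk' i))
        (fun i => V (S.orderEmbOfFin hk' i)) (∑ j, V (T.orderEmbOfFin hm' j)) := by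
    constructor
    · rintro ⟨P, hP⟩
      exact h1 k m _ _ _ _ _ hdat _ _ (fun i => hV _) (fun j => hV _)
        ⟨P, (realises_append S T hk' hm' hST u V P).mp hP⟩
    · intro h
      obtain ⟨P, hP⟩ := h2 k m _ _ _ _ _ hdat _ _ (fun i => hV _) (fun j => hV _) h
      exact ⟨P, (realises_append S T hk' hm' hST u V P).mpr hP⟩
  rw [hiff, crit_iff S T hk' hm' (fun i => c i / a i) V]
  refine exists_congr fun C => and_congr ?_ ?_
  · constructor
    · rintro ⟨i, hi, j, hj, hij, h3, h4⟩
      rw [hSd, Finset.mem_filter] at hi hj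
      exact ⟨i, j, hij, hi.2, hj.2, h3, h4⟩
    · rintro ⟨i, j, hij, hi, hj, h3, h4⟩
      exact ⟨i, by simp [hSd, hi], j, by simp [hSd, hj], hij, h3, h4⟩
  · rw [Nat.add_sub_cancel]
    push_cast
    rfl

end

end Pool.Agent.NP2
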