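import Pool.Agent.Lib.NP2.Props

/-!
# Forward direction: a realised polytope satisfies the criterion
-/

set_option autoImplicit false

open MeasureTheory Set Module
open scoped RealInnerProductSpace Nat
open Pool.Agent.LogMinkowski Pool.Agent.BM

namespace Pool.Agent.NP2

theorem fwd_index {k m : ℕ} (h2 : POSB) {s : Fin (k + 2) → ℝ}
    (hM : ∀ f : Fin (k + 2), Mom (m + 1) (fun i => s (f.succAbove i)) ≠ 0) :
    ∃ i j, i ≠ j ∧ 0 < s i ∧ 0 < s j := by
  have key : ∀ f : Fin (k + 2), ∃ i : Fin (k + 1), 0 < s (f.succAbove i) := by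
    intro f
    by_contra hcon
    push Not at hcon
    exact hM f (h2 k m _ hcon)
  obtain ⟨i, hi⟩ := key 0
  obtain ⟨j, hj⟩ := key ((0 : Fin (k + 2)).succAbove i)
  exact ⟨_, _, (Fin.succAbove_ne _ j).symm, hi, hj⟩

theorem fwd (h1 : VOL) (h2 : POSB) : FWD := by
  intro k m u v a b ρ hd V W hV hW hP
  obtain ⟨P, hP⟩ := hP
  obtain ⟨c, hc, hmem, hface, -⟩ := hP.halfspaces (by omega)
  obtain ⟨D, hD, hvol⟩ := h1 k m u v a b ρ hd
  set h : Fin (k + 2) → ℝ := fun i => c (Fin.castAdd (m + 2) i) with hh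
  set h' : Fin (m + 2) → ℝ := fun j => c (Fin.natAdd (k + 2) j) with hh'
  have hset : {x : E (k + m + 2) | ∀ j, ⟪Fin.append u v j, x⟫ ≤ c j} = PH u v h h' := by
    ext x
    rw [PH, mem_ofPred_eq, mem_ofPred_eq, Fin.forall_fin_add]
    simp only [Fin.append_left, Fin.append_right, hh, hh']
  have hfu : ∀ i, face P (u i) = PH u v h h' ∩ {y | ⟪u i, y⟫ = h i} := by
    intro i
    have e := hface (Fin.castAdd (m + 2) i)
    rw [Fin.append_left] at e
    rw [e, ← hset]
    rfl
  have hfv : ∀ j, face P (v j) = PH u v h h' ∩ {y | ⟪v j, y⟫ = h' j} := by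
    intro j
    have e := hface (Fin.natAdd (k + 2) j)
    rw [Fin.append_right] at e
    rw [e, ← hset]
    rfl
  have hVu : ∀ i, V i = (volume (coneOver 0 (PH u v h h' ∩ {y | ⟪u i, y⟫ = h i}))).toReal := by
    intro i
    have e := hP.volumes (Fin.castAdd (m + 2) i)
    rw [Fin.append_left, Fin.append_left, coneVolume_eq hP.polytope, hfu] at e
    exact e.symm
  have hWv : ∀ j, W j = (volume (coneOver 0 (PH u v h h' ∩ {y | ⟪v j, y⟫ = h' j}))).toReal := by
    intro j
    have e := hP.volumes (Fin.natAdd (k + 2) j)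
    rw [Fin.append_right, Fin.append_right, coneVolume_eq hP.polytope, hfv] at e
    exact e.symm
  have hhp : ∀ i, 0 < h i := fun i => hc _
  have hh'p : ∀ j, 0 < h' j := fun j => hc _
  set t : ℝ := ∑ i, a i * h i with ht
  have htp : 0 < t := Finset.sum_pos (fun i _ => mul_pos (hd.apos i) (hhp i)) ⟨0, Finset.mem_univ _⟩
  set C : ℝ := (∑ j, b j * h' j + ∑ i, ρ i * (a i * h i)) / t with hC
  have hCt : C * t = ∑ j, b j * h' j + ∑ i, ρ i * (a i * h i) := by
    rw [hC]; field_simp
  obtain ⟨hI, hJ⟩ := hvol h h' hhp hh'p t C rfl hCt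
  set s : Fin (k + 2) → ℝ := fun i => C - ρ i with hs
  set T : ℝ := t ^ (k + m + 1) / (k + m + 2) with hT
  have hTp : 0 < T := by positivity
  have hfac : (0 : ℝ) < (m !) := by exact_mod_cast Nat.factorial_pos m
  have hfacs : (((m + 1)! : ℕ) : ℝ) = (m + 1) * (m !) := by
    rw [Nat.factorial_succ]; push_cast; ring
  have eI : ∀ f, D * V f = (a f * h f) * T * Mom (m + 1) (fun i => s (f.succAbove i)) /
      ((m + 1) * (m !)) := by
    intro f
    rw [hVu f, hI f, volI, hfacs, hT]
    field_simp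
  have eJ : ∀ f, D * W f = (b f * h' f) * T * Mom m s / (m !) := by
    intro f
    rw [hWv f, hJ f, volJ, hT]
    field_simp
  have hMne : ∀ f : Fin (k + 2), Mom (m + 1) (fun i => s (f.succAbove i)) ≠ 0 := by
    intro f h0
    have e := eI f
    rw [h0, mul_zero, zero_div] at e
    exact (mul_pos hD (hV f)).ne' e
  obtain ⟨i, j, hij, hi, hj⟩ := fwd_index h2 hMne
  refine ⟨C, ⟨i, j, hij, sub_pos.1 hi, sub_pos.1 hj⟩, ?_⟩
  have hb : ∀ f, a f * h f = D * V f * ((m + 1) * (m !)) /
      (T * Mom (m + 1) (fun i => s (f.succAbove i))) := by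
    intro f
    have := hMne f
    rw [eI f]
    field_simp
  have hsumb : ∑ j, b j * h' j = ∑ i, s i * (a i * h i) := by
    have e1 : ∑ i, s i * (a i * h i) = C * t - ∑ i, ρ i * (a i * h i) := by
      rw [ht, Finset.mul_sum, ← Finset.sum_sub_distrib]
      exact Finset.sum_congr rfl fun i _ => by rw [hs]; ring
    rw [e1, hCt]; ring
  have hW' : D * ∑ j, W j = (∑ j, b j * h' j) * T * Mom m s / (m !) := by
    rw [Finset.mul_sum, Finset.sum_congr rfl fun j _ => eJ j, Finset.sum_mul, Finset.sum_mul,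
      Finset.sum_div]
  have hfin : D * ∑ j, W j = D * ((m + 1) * Mom m s *
      ∑ i, V i * s i / Mom (m + 1) (fun j => s (i.succAbove j))) := by
    rw [hW', hsumb, Finset.sum_mul, Finset.sum_mul, Finset.sum_div, Finset.mul_sum, Finset.mul_sum]
    refine Finset.sum_congr rfl fun f _ => ?_
    have := hMne f
    rw [hb f]
    field_simp
  exact mul_left_cancel₀ hD.ne' hfin

end Pool.Agent.NP2
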