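import Pool.Agent.Lib.NP2.Props

/-!
# Row HPOLY: polytopes given by half-spaces
-/

set_option autoImplicit false

open MeasureTheory Set Module
open scoped RealInnerProductSpace Topology
open Pool.Agent.LogMinkowski Pool.Agent.BM

namespace Pool.Agent.NP2

namespace HP

variable {n N : ℕ} {u : Fin N → E n} {h : Fin N → ℝ}

/-- the active set -/
noncomputable def act (u : Fin N → E n) (h : Fin N → ℝ) (x : E n) : Finset (Fin N) :=
  by classical exact Finset.univ.filter fun i => ⟪u i, x⟫ = h i

theorem mem_act {x : E n} {i : Fin N} : i ∈ act u h x ↔ ⟪u i, x⟫ = h i := by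
  unfold act; simp

theorem eventually_lt {x d : E n} {i : Fin N} (hx : ⟪u i, x⟫ < h i) :
    ∀ᶠ ε : ℝ in 𝓝 0, ⟪u i, x + ε • d⟫ < h i := by
  have hc : Continuous fun ε : ℝ => ⟪u i, x + ε • d⟫ := by fun_prop
  apply hc.continuousAt.eventually_lt continuousAt_const
  simpa using hx

/-- an extreme point is determined by its active set -/
theorem act_inj {x y : E n} (hx : x ∈ extremePoints ℝ {y : E n | ∀ i, ⟪u i, y⟫ ≤ h i})
    (_hy : ∀ i, ⟪u i, y⟫ ≤ h i) (hxy : act u h x = act u h y) : x = y := by
  by_contra hne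
  have hxP : ∀ i, ⟪u i, x⟫ ≤ h i := hx.1
  have hd : ∀ i, ⟪u i, x⟫ = h i → ⟪u i, x - y⟫ = 0 := by
    intro i hi
    have h1 : i ∈ act u h y := hxy ▸ mem_act.2 hi
    rw [inner_sub_right, hi, mem_act.1 h1, sub_self]
  have h1 : ∀ᶠ ε : ℝ in 𝓝 0, ∀ i, ⟪u i, x + ε • (x - y)⟫ ≤ h i := by
    rw [Filter.eventually_all]
    intro i
    rcases (hxP i).lt_or_eq with hi | hi
    · exact (eventually_lt hi).mono fun ε hε => hε.le
    · refine Filter.Eventually.of_forall fun ε => ?_
      rw [inner_add_right, real_inner_smul_right, hd i hi, mul_zero, add_zero, hi]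
  have h2 : ∀ᶠ ε : ℝ in 𝓝 0, ∀ i, ⟪u i, x + (-ε) • (x - y)⟫ ≤ h i := by
    have : Filter.Tendsto (fun ε : ℝ => -ε) (𝓝 0) (𝓝 0) := by
      simpa using (continuous_neg.tendsto (0 : ℝ))
    exact this.eventually h1
  obtain ⟨ε, ⟨hε1, hε2⟩, hε3⟩ := (((h1.and h2).filter_mono nhdsWithin_le_nhds).and
    (self_mem_nhdsWithin : Ioi (0 : ℝ) ∈ 𝓝[>] (0 : ℝ))).exists
  have hε : (0 : ℝ) < ε := hε3
  have h3 : x ∈ openSegment ℝ (x + ε • (x - y)) (x + (-ε) • (x - y)) := by
    refine ⟨1 / 2, 1 / 2, by norm_num, by norm_num, by norm_num, ?_⟩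
    module
  have h4 := (mem_extremePoints_iff_left.1 hx).2 _ hε1 _ hε2 h3
  have h5 : ε • (x - y) = 0 := by
    have := congrArg (fun z => z - x) h4
    simpa using this
  rcases smul_eq_zero.1 h5 with h6 | h6
  · exact hε.ne' h6
  · exact hne (sub_eq_zero.1 h6)

theorem isClosed_P : IsClosed {y : E n | ∀ i, ⟪u i, y⟫ ≤ h i} := by
  have : {y : E n | ∀ i, ⟪u i, y⟫ ≤ h i} = ⋂ i, {y : E n | ⟪u i, y⟫ ≤ h i} := by
    ext y; simp
  rw [this]
  exact isClosed_iInter fun i => isClosed_le (by fun_prop) continuous_const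

theorem convex_P : Convex ℝ {y : E n | ∀ i, ⟪u i, y⟫ ≤ h i} := by
  intro x hx y hy a b ha hb hab i
  rw [inner_add_right, real_inner_smul_right, real_inner_smul_right]
  have h1 := mul_le_mul_of_nonneg_left (hx i) ha
  have h2 := mul_le_mul_of_nonneg_left (hy i) hb
  have h3 : h i = a * h i + b * h i := by rw [← add_mul, hab, one_mul]
  linarith

theorem exists_finset (hb : Bornology.IsBounded {y : E n | ∀ i, ⟪u i, y⟫ ≤ h i}) :
    ∃ S : Finset (E n), {y : E n | ∀ i, ⟪u i, y⟫ ≤ h i} = convexHull ℝ (S : Set (E n)) := by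
  have hc : IsCompact {y : E n | ∀ i, ⟪u i, y⟫ ≤ h i} :=
    Metric.isCompact_of_isClosed_isBounded isClosed_P hb
  have hfin : (extremePoints ℝ {y : E n | ∀ i, ⟪u i, y⟫ ≤ h i}).Finite := by
    refine Set.Finite.of_injOn (f := act u h) (t := univ) (fun _ _ => mem_univ _) ?_ finite_univ
    intro x hx y hy hxy
    exact act_inj hx hy.1 hxy
  refine ⟨hfin.toFinset, ?_⟩
  rw [hfin.coe_toFinset]
  have h1 := closure_convexHull_extremePoints hc convex_P
  rw [(hfin.isCompact_convexHull ℝ).isClosed.closure_eq] at h1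
  exact h1.symm

end HP

open HP in
theorem hpoly : HPOLY := by
  intro n N hn u h hu hinj hh hb hy
  set P : Set (E n) := {y : E n | ∀ i, ⟪u i, y⟫ ≤ h i} with hP
  have hzero : (0 : E n) ∈ P := fun i => by rw [inner_zero_right]; exact (hh i).le
  have hOopen : IsOpen {x : E n | ∀ i, ⟪u i, x⟫ < h i} := by
    have : {x : E n | ∀ i, ⟪u i, x⟫ < h i} = ⋂ i, {x : E n | ⟪u i, x⟫ < h i} := by
      ext x; simp
    rw [this]
    exact isOpen_iInter_of_finite fun i => isOpen_lt (by fun_prop) continuous_const
  have hface : ∀ i, face P (u i) = {y | (∀ j, ⟪u j, y⟫ ≤ h j) ∧ ⟪u i, y⟫ = h i} := by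
    intro i
    obtain ⟨y, hy1, hy2⟩ := hy i
    have hyP : y ∈ P := fun j => by
      by_cases hj : j = i
      · rw [hj, hy1]
      · exact (hy2 j hj).le
    ext x
    constructor
    · rintro ⟨hx1, hx2⟩
      refine ⟨hx1, le_antisymm (hx1 i) ?_⟩
      rw [← hy1]
      exact hx2 _ hyP
    · rintro ⟨hx1, hx2⟩
      exact ⟨hx1, fun z hz => by rw [hx2]; exact hz i⟩
  refine ⟨⟨exists_finset hb, ?_⟩, ?_, hface⟩
  · exact interior_maximal (fun x hx i => (hx i).le) hOopen
      (fun i => by rw [inner_zero_right]; exact hh i)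
  · intro v
    constructor
    · rintro ⟨hv1, hv2⟩
      -- the face lies in one hyperplane
      have hne : (face P v).Nonempty := by
        by_contra hno
        rw [Set.not_nonempty_iff_eq_empty] at hno
        rw [hno, vectorSpan_empty, finrank_bot] at hv2
        omega
      have hFc := face_convex (convex_P (u := u) (h := h)) v
      have hone : ∃ i, ∀ x ∈ face P v, ⟪u i, x⟫ = h i := by
        by_contra hno
        push Not at hno
        choose x hx hxi using hno
        -- the average
        rcases Nat.eq_zero_or_pos N with hN | hN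
        · subst hN
          obtain ⟨z, hz⟩ := hne
          have h1 : z + v ∈ P := fun i => i.elim0
          have h2 := hz.2 _ h1
          rw [inner_add_right, real_inner_self_eq_norm_sq, hv1] at h2
          linarith
        · have : Nonempty (Fin N) := ⟨⟨0, hN⟩⟩
          set m : E n := ∑ j, (1 / (N : ℝ)) • x j with hm
          have hNpos : (0 : ℝ) < N := by exact_mod_cast hN
          have hmf : m ∈ face P v := by
            refine hFc.sum_mem (fun _ _ => by positivity) ?_ fun j _ => hx j
            simp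
            field_simp
          have hmO : ∀ i, ⟪u i, m⟫ < h i := by
            intro i
            have h1 : ⟪u i, m⟫ = ∑ j, (1 / (N : ℝ)) * ⟪u i, x j⟫ := by
              rw [hm, inner_sum]
              exact Finset.sum_congr rfl fun j _ => real_inner_smul_right _ _ _
            have h2 : h i = ∑ j : Fin N, (1 / (N : ℝ)) * h i := by
              rw [Finset.sum_const, Finset.card_univ, Fintype.card_fin, nsmul_eq_mul]
              field_simp
            rw [h1]
            conv_rhs => rw [h2]
            refine Finset.sum_lt_sum (fun j _ => ?_) ⟨i, Finset.mem_univ _, ?_⟩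
            · exact mul_le_mul_of_nonneg_left ((hx j).1 i) (by positivity)
            · exact mul_lt_mul_of_pos_left (lt_of_le_of_ne ((hx i).1 i) (hxi i)) (by positivity)
          have hcont : Continuous fun ε : ℝ => m + ε • v := by fun_prop
          have hev : ∀ᶠ ε : ℝ in 𝓝 0, m + ε • v ∈ {x : E n | ∀ i, ⟪u i, x⟫ < h i} := by
            apply hcont.continuousAt.eventually_mem
            have : m ∈ {x : E n | ∀ i, ⟪u i, x⟫ < h i} := hmO
            simpa using hOopen.mem_nhds this
          obtain ⟨ε, hε1, hε2⟩ := ((hev.filter_mono nhdsWithin_le_nhds).and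
            (self_mem_nhdsWithin : Ioi (0 : ℝ) ∈ 𝓝[>] (0 : ℝ))).exists
          have h3 := hmf.2 _ (fun i => (hε1 i).le)
          rw [inner_add_right, real_inner_smul_right, real_inner_self_eq_norm_sq, hv1] at h3
          have h4 : (0 : ℝ) < ε := hε2
          linarith
      obtain ⟨i, hi⟩ := hone
      refine ⟨i, ?_⟩
      obtain ⟨z, hz⟩ := hne
      have hvz : ∀ x ∈ face P v, ⟪v, x⟫ = ⟪v, z⟫ := fun x hx =>
        le_antisymm (hz.2 x hx.1) (hx.2 z hz.1)
      have hsub : ∀ w : E n, (∀ x ∈ face P v, ⟪w, x⟫ = ⟪w, z⟫) →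
          vectorSpan ℝ (face P v) ≤ (ℝ ∙ w)ᗮ := by
        intro w hw
        rw [vectorSpan_def, Submodule.span_le]
        rintro _ ⟨x, hx, y, hy, rfl⟩
        show x - y ∈ (ℝ ∙ w)ᗮ
        rw [Submodule.mem_orthogonal_singleton_iff_inner_right,
          inner_sub_right, hw x hx, hw y hy, sub_self]
      have hdim : ∀ w : E n, ‖w‖ = 1 → finrank ℝ (ℝ ∙ w)ᗮ = n - 1 := by
        intro w hw
        have hw0 : w ≠ 0 := by
          rintro rfl
          rw [norm_zero] at hw
          exact zero_ne_one hw
        have h1 := Submodule.finrank_add_finrank_orthogonal (ℝ ∙ w)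
        rw [finrank_span_singleton hw0, finrank_euclideanSpace_fin] at h1
        omega
      have e1 : vectorSpan ℝ (face P v) = (ℝ ∙ (u i))ᗮ :=
        Submodule.eq_of_le_of_finrank_eq (hsub _ fun x hx => by rw [hi x hx, hi z hz])
          (by rw [hv2, hdim _ (hu i)])
      have e2 : vectorSpan ℝ (face P v) = (ℝ ∙ v)ᗮ :=
        Submodule.eq_of_le_of_finrank_eq (hsub _ hvz) (by rw [hv2, hdim _ hv1])
      have e3 : (ℝ ∙ (u i)) = (ℝ ∙ v) := by
        have := congrArg Submodule.orthogonal (e1.symm.trans e2)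
        simpa only [Submodule.orthogonal_orthogonal] using this
      have h5 : u i ∈ (ℝ ∙ v) := e3 ▸ Submodule.mem_span_singleton_self _
      obtain ⟨c, hc⟩ := Submodule.mem_span_singleton.1 h5
      have h6 : |c| = 1 := by
        have := congrArg norm hc
        rwa [norm_smul, hv1, mul_one, hu i, Real.norm_eq_abs] at this
      rcases (abs_eq zero_le_one).1 h6 with h7 | h7
      · rw [← hc, h7, one_smul]
      · exfalso
        rw [h7, neg_one_smul] at hc
        have h8 := hz.2 0 hzero
        rw [inner_zero_right] at h8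
        have h9 := hi z hz
        rw [← hc, inner_neg_left] at h9
        linarith [hh i]
    · rintro ⟨i, rfl⟩
      refine ⟨hu i, ?_⟩
      obtain ⟨y, hy1, hy2⟩ := hy i
      have hw0 : u i ≠ 0 := by
        intro h0
        have := hu i
        rw [h0, norm_zero] at this
        exact zero_ne_one this
      have hdim : finrank ℝ (ℝ ∙ (u i))ᗮ = n - 1 := by
        have h1 := Submodule.finrank_add_finrank_orthogonal (ℝ ∙ (u i))
        rw [finrank_span_singleton hw0, finrank_euclideanSpace_fin] at h1
        omega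
      rw [← hdim]
      have key : vectorSpan ℝ (face P (u i)) = (ℝ ∙ (u i))ᗮ := by
       apply le_antisymm
       · rw [vectorSpan_def, Submodule.span_le]
         rintro _ ⟨x, hx, z, hz, rfl⟩
         rw [hface i] at hx hz
         show x - z ∈ (ℝ ∙ (u i))ᗮ
         rw [Submodule.mem_orthogonal_singleton_iff_inner_right,
          inner_sub_right, hx.2, hz.2, sub_self]
       · intro d hd
         rw [Submodule.mem_orthogonal_singleton_iff_inner_right] at hd
         have hev : ∀ᶠ ε : ℝ in 𝓝 0, y + ε • d ∈ face P (u i) := by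
           have h1 : ∀ᶠ ε : ℝ in 𝓝 0, ∀ j, ⟪u j, y + ε • d⟫ ≤ h j := by
             rw [Filter.eventually_all]
             intro j
             by_cases hj : j = i
             · subst hj
               refine Filter.Eventually.of_forall fun ε => ?_
               rw [inner_add_right, real_inner_smul_right, hd, mul_zero, add_zero, hy1]
             · exact (eventually_lt (hy2 j hj)).mono fun ε hε => hε.le
           filter_upwards [h1] with ε hε
           rw [hface i]
           refine ⟨hε, ?_⟩
           rw [inner_add_right, real_inner_smul_right, hd, mul_zero, add_zero, hy1]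
         obtain ⟨ε, hε1, hε2⟩ := ((hev.filter_mono nhdsWithin_le_nhds).and
           (self_mem_nhdsWithin : Ioi (0 : ℝ) ∈ 𝓝[>] (0 : ℝ))).exists
         have hεpos : (0 : ℝ) < ε := hε2
         have hyf : y ∈ face P (u i) := by
           rw [hface i]
           refine ⟨fun j => ?_, hy1⟩
           by_cases hj : j = i
           · rw [hj, hy1]
           · exact (hy2 j hj).le
         have h2 : (y + ε • d) -ᵥ y ∈ vectorSpan ℝ (face P (u i)) := vsub_mem_vectorSpan ℝ hε1 hyf
         rw [vsub_eq_sub, add_sub_cancel_left] at h2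
         have h3 := Submodule.smul_mem (vectorSpan ℝ (face P (u i))) ε⁻¹ h2
         rwa [smul_smul, inv_mul_cancel₀ hεpos.ne', one_smul] at h3
      rw [key]

end Pool.Agent.NP2
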