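import Pool.Agent.Lib.NP2.Base

/-!
# Rows MODI and MODJ
-/

set_option autoImplicit false

open MeasureTheory Set Module
open scoped RealInnerProductSpace Topology Nat Pointwise
open Pool.Agent.LogMinkowski Pool.Agent.BM

namespace Pool.Agent.NP2

/-- the coordinate `i` of the first factor in front -/
def eI (k m : ℕ) (i : Fin (k + 1)) : ((Fin (k + 1) → ℝ) × (Fin (m + 1) → ℝ)) ≃ᵐ
    ℝ × ((Fin k → ℝ) × (Fin (m + 1) → ℝ)) :=
  ((MeasurableEquiv.piFinSuccAbove (fun _ => ℝ) i).prodCongr (MeasurableEquiv.refl _)).trans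
    MeasurableEquiv.prodAssoc

theorem eI_apply (k m : ℕ) (i : Fin (k + 1)) (p : (Fin (k + 1) → ℝ) × (Fin (m + 1) → ℝ)) :
    eI k m i p = (p.1 i, (fun a => p.1 (i.succAbove a), p.2)) := rfl

theorem mp_eI (k m : ℕ) (i : Fin (k + 1)) : MeasurePreserving (eI k m i) := by
  have h1 := (volume_preserving_piFinSuccAbove (fun _ : Fin (k + 1) => ℝ) i).prod
    (MeasurePreserving.id (volume : Measure (Fin (m + 1) → ℝ)))
  have h2 := measurePreserving_prodAssoc (volume : Measure ℝ) (volume : Measure (Fin k → ℝ))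
    (volume : Measure (Fin (m + 1) → ℝ))
  exact h2.comp h1

/-- the coordinate `j` of the second factor in front -/
def eJ (k m : ℕ) (j : Fin (m + 1)) : ((Fin (k + 1) → ℝ) × (Fin (m + 1) → ℝ)) ≃ᵐ
    ℝ × ((Fin (k + 1) → ℝ) × (Fin m → ℝ)) :=
  (MeasurableEquiv.prodComm.trans
    ((MeasurableEquiv.piFinSuccAbove (fun _ => ℝ) j).prodCongr (MeasurableEquiv.refl _))).trans
      (MeasurableEquiv.prodAssoc.trans ((MeasurableEquiv.refl _).prodCongr MeasurableEquiv.prodComm))

theorem eJ_apply (k m : ℕ) (j : Fin (m + 1)) (p : (Fin (k + 1) → ℝ) × (Fin (m + 1) → ℝ)) :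
    eJ k m j p = (p.2 j, (p.1, fun a => p.2 (j.succAbove a))) := rfl

theorem mp_eJ (k m : ℕ) (j : Fin (m + 1)) : MeasurePreserving (eJ k m j) := by
  have h0 : MeasurePreserving (MeasurableEquiv.prodComm :
      ((Fin (k + 1) → ℝ) × (Fin (m + 1) → ℝ)) ≃ᵐ _) (volume.prod volume) (volume.prod volume) :=
    Measure.measurePreserving_swap
  have h1 := (volume_preserving_piFinSuccAbove (fun _ : Fin (m + 1) => ℝ) j).prod
    (MeasurePreserving.id (volume : Measure (Fin (k + 1) → ℝ)))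
  have h2 := measurePreserving_prodAssoc (volume : Measure ℝ) (volume : Measure (Fin m → ℝ))
    (volume : Measure (Fin (k + 1) → ℝ))
  have h3 : MeasurePreserving (MeasurableEquiv.prodComm :
      ((Fin m → ℝ) × (Fin (k + 1) → ℝ)) ≃ᵐ _) (volume.prod volume) (volume.prod volume) :=
    Measure.measurePreserving_swap
  have h4 := (MeasurePreserving.id (volume : Measure ℝ)).prod h3
  exact h4.comp (h2.comp (h1.comp h0))

/-- images of cones under maps that respect segments -/
theorem coneOver_image {E F : Type} [AddCommGroup E] [Module ℝ E] [AddCommGroup F] [Module ℝ F]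
    (g : E → F) (hg : ∀ (x y : E) (r : ℝ), g (r • x + (1 - r) • y) = r • g x + (1 - r) • g y)
    (o : E) (A : Set E) : g '' coneOver o A = coneOver (g o) (g '' A) := by
  ext y
  constructor
  · rintro ⟨_, ⟨⟨r, f⟩, ⟨hr, hf⟩, rfl⟩, rfl⟩
    exact ⟨(r, g f), ⟨hr, mem_image_of_mem _ hf⟩, (hg o f r).symm⟩
  · rintro ⟨⟨r, _⟩, ⟨hr, ⟨f, hf, rfl⟩⟩, rfl⟩
    exact ⟨_, ⟨(r, f), ⟨hr, hf⟩, rfl⟩, hg o f r⟩

theorem volume_image {X Y : Type} [MeasurableSpace X] [MeasurableSpace Y] {μ : Measure X}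
    {ν : Measure Y} (e : X ≃ᵐ Y) (he : MeasurePreserving e μ ν) (A : Set X) :
    ν (e '' A) = μ A := by
  rw [← e.preimage_symm]
  exact (he.symm e).measure_preimage_equiv A

theorem isCompact_BS (r d : ℕ) {t : ℝ} (ht : 0 < t) (s : Fin (r + 1) → ℝ) :
    IsCompact (BS r d t s) := by
  obtain ⟨M, hM⟩ := (isCompact_tS r ht).exists_bound_of_continuousOn
    (continuous_affT t s).continuousOn
  refine ((isCompact_tS r ht).prod (isCompact_univ_pi fun _ : Fin d =>
    isCompact_Icc (a := (0 : ℝ)) (b := M))).of_isClosed_subset (isClosed_BS r d t s) ?_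
  rintro p ⟨h1, h2, h3, h4⟩
  refine ⟨⟨h1, h2⟩, fun j _ => ⟨h3 j, ?_⟩⟩
  have h5 := hM p.1 ⟨h1, h2⟩
  rw [Real.norm_eq_abs] at h5
  exact ((Finset.single_le_sum (f := p.2) (fun i _ => h3 i) (Finset.mem_univ j)).trans h4).trans
    ((le_abs_self _).trans h5)

theorem modI (hc : CONE) : MODI := by
  intro k m t s ht i o ho
  have h1 := volume_image (eI k m i) (mp_eI k m i) (coneOver o (MP k m t s ∩ {p | p.1 i = 0}))
  rw [coneOver_image (eI k m i) (fun x y r => rfl)] at h1
  have h2 : eI k m i '' (MP k m t s ∩ {p | p.1 i = 0}) =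
      (fun y => ((0 : ℝ), y)) '' BS k (m + 1) t (fun a => s (i.succ.succAbove a)) := by
    have haff : ∀ p : (Fin (k + 1) → ℝ) × (Fin (m + 1) → ℝ), p.1 i = 0 →
        affT t s p.1 = affT t (fun a => s (i.succ.succAbove a)) (fun a => p.1 (i.succAbove a)) := by
      intro p hp
      unfold affT
      rw [Fin.sum_univ_succAbove _ i, hp, zero_add, Fin.sum_univ_succAbove _ i, hp, mul_zero,
        zero_add]
      congr 1
      refine Finset.sum_congr rfl fun a _ => ?_
      show s (i.succAbove a).succ * p.1 (i.succAbove a) =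
        s (i.succ.succAbove a.succ) * p.1 (i.succAbove a)
      rw [Fin.succ_succAbove_succ]
    ext q
    constructor
    · rintro ⟨p, ⟨⟨a1, a2, a3, a4⟩, a5⟩, rfl⟩
      have a5' : p.1 i = 0 := a5
      refine ⟨(fun a => p.1 (i.succAbove a), p.2), ⟨fun a => a1 _, ?_, a3, ?_⟩, ?_⟩
      · rw [Fin.sum_univ_succAbove _ i, a5', zero_add] at a2
        exact a2
      · show ∑ j, p.2 j ≤ affT t _ (fun a => p.1 (i.succAbove a))
        rw [← haff p a5']
        exact a4
      · rw [eI_apply, a5']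
    · rintro ⟨⟨x, z⟩, ⟨b1, b2, b3, b4⟩, rfl⟩
      have hx : (Fin.insertNth i (0 : ℝ) x : Fin (k + 1) → ℝ) i = 0 := by simp
      have hx' : (fun a => (Fin.insertNth i (0 : ℝ) x : Fin (k + 1) → ℝ) (i.succAbove a)) = x := by
        funext a; simp
      refine ⟨(Fin.insertNth i 0 x, z), ⟨⟨fun a => ?_, ?_, b3, ?_⟩, hx⟩, ?_⟩
      · show 0 ≤ (Fin.insertNth i (0 : ℝ) x : Fin (k + 1) → ℝ) a
        rcases Fin.eq_self_or_eq_succAbove i a with h | ⟨a', h⟩
        · rw [h, hx]
        · rw [h, Fin.insertNth_apply_succAbove]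
          exact b1 a'
      · show ∑ a, (Fin.insertNth i (0 : ℝ) x : Fin (k + 1) → ℝ) a ≤ t
        rw [Fin.sum_univ_succAbove _ i, hx, zero_add]
        simpa using b2
      · show ∑ j, z j ≤ affT t s (Fin.insertNth i (0 : ℝ) x : Fin (k + 1) → ℝ)
        rw [haff (Fin.insertNth i 0 x, z) hx]
        show ∑ j, z j ≤ affT t _ (fun a => (Fin.insertNth i (0 : ℝ) x : Fin (k + 1) → ℝ)
          (i.succAbove a))
        rw [hx']
        exact b4
      · rw [eI_apply]
        show ((Fin.insertNth i (0 : ℝ) x : Fin (k + 1) → ℝ) i, _, z) = _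
        rw [hx, hx']
  rw [h2] at h1
  have hH : ((volume : Measure (Fin k → ℝ)).prod
      (volume : Measure (Fin (m + 1) → ℝ))).IsAddHaarMeasure := Measure.prod.instIsAddHaarMeasure _ _
  have h3 := hc ((Fin k → ℝ) × (Fin (m + 1) → ℝ)) ((volume : Measure (Fin k → ℝ)).prod
    (volume : Measure (Fin (m + 1) → ℝ))) _
    (isCompact_BS k (m + 1) ht (fun a => s (i.succ.succAbove a))) (eI k m i o) ho
  rw [← h1]
  show ((volume.prod (volume.prod volume)) _).toReal = _
  rw [h3, ← Measure.volume_eq_prod, volume_BS k (m + 1) ht]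
  have hM : 0 ≤ Mom (m + 1) (fun a => s (i.succ.succAbove a)) :=
    integral_nonneg fun σ => pp_nonneg _ _
  have hd : finrank ℝ ((Fin k → ℝ) × (Fin (m + 1) → ℝ)) = k + (m + 1) := by simp
  rw [hd, eI_apply, ENNReal.toReal_mul, ENNReal.toReal_ofReal (by positivity),
    ENNReal.toReal_ofReal (by positivity)]
  unfold volI
  push_cast
  rw [show k + (m + 1) = k + m + 1 by ring]
  field_simp
  ring

theorem modJ (hc : CONE) : MODJ := by
  intro k m t s ht j o ho
  have h1 := volume_image (eJ k m j) (mp_eJ k m j) (coneOver o (MP k m t s ∩ {p | p.2 j = 0}))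
  rw [coneOver_image (eJ k m j) (fun x y r => rfl)] at h1
  have h2 : eJ k m j '' (MP k m t s ∩ {p | p.2 j = 0}) =
      (fun y => ((0 : ℝ), y)) '' BS (k + 1) m t s := by
    ext q
    constructor
    · rintro ⟨p, ⟨⟨a1, a2, a3, a4⟩, a5⟩, rfl⟩
      have a5' : p.2 j = 0 := a5
      refine ⟨(p.1, fun a => p.2 (j.succAbove a)), ⟨a1, a2, fun a => a3 _, ?_⟩, ?_⟩
      · rw [Fin.sum_univ_succAbove _ j, a5', zero_add] at a4
        exact a4
      · rw [eJ_apply, a5']
    · rintro ⟨⟨x, z⟩, ⟨b1, b2, b3, b4⟩, rfl⟩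
      have hx : (Fin.insertNth j (0 : ℝ) z : Fin (m + 1) → ℝ) j = 0 := by simp
      have hx' : (fun a => (Fin.insertNth j (0 : ℝ) z : Fin (m + 1) → ℝ) (j.succAbove a)) = z := by
        funext a; simp
      refine ⟨(x, Fin.insertNth j 0 z), ⟨⟨b1, b2, fun a => ?_, ?_⟩, hx⟩, ?_⟩
      · show 0 ≤ (Fin.insertNth j (0 : ℝ) z : Fin (m + 1) → ℝ) a
        rcases Fin.eq_self_or_eq_succAbove j a with h | ⟨a', h⟩
        · rw [h, hx]
        · rw [h, Fin.insertNth_apply_succAbove]
          exact b3 a'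
      · show ∑ a, (Fin.insertNth j (0 : ℝ) z : Fin (m + 1) → ℝ) a ≤ affT t s x
        rw [Fin.sum_univ_succAbove _ j, hx, zero_add]
        simpa using b4
      · rw [eJ_apply]
        show ((Fin.insertNth j (0 : ℝ) z : Fin (m + 1) → ℝ) j, x, _) = _
        rw [hx, hx']
  rw [h2] at h1
  have hH : ((volume : Measure (Fin (k + 1) → ℝ)).prod
      (volume : Measure (Fin m → ℝ))).IsAddHaarMeasure := Measure.prod.instIsAddHaarMeasure _ _
  have h3 := hc ((Fin (k + 1) → ℝ) × (Fin m → ℝ)) ((volume : Measure (Fin (k + 1) → ℝ)).prod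
    (volume : Measure (Fin m → ℝ))) _
    (isCompact_BS (k + 1) m ht s) (eJ k m j o) ho
  rw [← h1]
  show ((volume.prod (volume.prod volume)) _).toReal = _
  rw [h3, ← Measure.volume_eq_prod, volume_BS (k + 1) m ht]
  have hM : 0 ≤ Mom m s := integral_nonneg fun σ => pp_nonneg _ _
  have hd : finrank ℝ ((Fin (k + 1) → ℝ) × (Fin m → ℝ)) = (k + 1) + m := by simp
  rw [hd, eJ_apply, ENNReal.toReal_mul, ENNReal.toReal_ofReal (by positivity),
    ENNReal.toReal_ofReal (by positivity)]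
  unfold volJ
  push_cast
  rw [show k + 1 + m = k + m + 1 by ring]
  field_simp
  ring

end Pool.Agent.NP2
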