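import Pool.Agent.Lib.NP2.Props

/-!
# Rows MODI0, MODJ0: the facets exchanged by an affine involution.  helper15
-/

set_option autoImplicit false

open MeasureTheory Set Module
open scoped RealInnerProductSpace Nat
open Pool.Agent.LogMinkowski Pool.Agent.BM

namespace Pool.Agent.NP2

namespace Mod0p

section

variable {F : Type} [NormedAddCommGroup F] [NormedSpace ℝ F]

/-- an affine involution preserves volumes -/
theorem vol_inv [FiniteDimensional ℝ F] [MeasurableSpace F] [BorelSpace F] (μ : Measure F)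
    [μ.IsAddHaarMeasure] {L : F → F} (hL : IsLinearMap ℝ L) (c : F) {T : F → F}
    (hT : ∀ p, T p = L p + c) (hTT : ∀ p, T (T p) = p) (A : Set F) : μ (T '' A) = μ A := by
  obtain ⟨M, hM⟩ : ∃ M : F →ₗ[ℝ] F, ∀ p, M p = L p := ⟨hL.mk' L, fun _ => rfl⟩
  have h0 : ∀ p, M (M p) = p := by
    intro p
    have h1 := hTT p
    have h2 := hTT 0
    rw [hT, hT, ← hM, ← hM, map_add] at h1 h2
    rw [map_zero, map_zero, zero_add] at h2
    rw [add_assoc, h2, add_zero] at h1
    exact h1
  have h1 : M * M = 1 := LinearMap.ext h0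
  have h2 : LinearMap.det M * LinearMap.det M = 1 := by
    rw [← map_mul, h1, map_one]
  have h3 : |LinearMap.det M| = 1 := by
    rcases mul_self_eq_one_iff.1 h2 with h | h <;> rw [h] <;> simp
  have h4 : T '' A = (fun y => y + c) '' (M '' A) := by
    rw [image_image]
    refine image_congr fun p _ => ?_
    rw [hT, hM]
  rw [h4, image_add_right, measure_preimage_add_right, Measure.addHaar_image_linearMap, h3,
    ENNReal.ofReal_one, one_mul]

/-- the image of a cone -/
theorem cone_image {L : F → F} (hL : IsLinearMap ℝ L) (c : F) {T : F → F}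
    (hT : ∀ p, T p = L p + c) (o : F) (A : Set F) :
    T '' coneOver o A = coneOver (T o) (T '' A) := by
  have h : ∀ (r : ℝ) (p : F), T (r • o + (1 - r) • p) = r • T o + (1 - r) • T p := by
    intro r p
    rw [hT, hT, hT, hL.map_add, hL.map_smul, hL.map_smul]
    module
  ext y
  constructor
  · rintro ⟨_, ⟨⟨r, p⟩, ⟨hr, hp⟩, rfl⟩, rfl⟩
    exact ⟨(r, T p), ⟨hr, mem_image_of_mem _ hp⟩, (h r p).symm⟩
  · rintro ⟨⟨r, _⟩, ⟨hr, ⟨p, hp, rfl⟩⟩, rfl⟩
    exact ⟨_, ⟨(r, p), ⟨hr, hp⟩, rfl⟩, h r p⟩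

end

/-- sums of a modified function -/
theorem sum_ite {r : ℕ} (x : Fin (r + 1) → ℝ) (a : ℝ) :
    ∑ i, (if i = 0 then a else x i) = a + (∑ i, x i - x 0) := by
  rw [Fin.sum_univ_succ, Fin.sum_univ_succ x, if_pos rfl]
  simp only [Fin.succ_ne_zero, if_false]
  ring

end Mod0p

open Mod0p

theorem modI0 (h : MODI) : MODI0 := by
  intro k m t s ht o ho
  -- the involution
  let T : (Fin (k + 1) → ℝ) × (Fin (m + 1) → ℝ) → (Fin (k + 1) → ℝ) × (Fin (m + 1) → ℝ) :=
    fun p => (fun i => if i = 0 then t - ∑ j, p.1 j else p.1 i, p.2)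
  let L : (Fin (k + 1) → ℝ) × (Fin (m + 1) → ℝ) → (Fin (k + 1) → ℝ) × (Fin (m + 1) → ℝ) :=
    fun p => (fun i => if i = 0 then - ∑ j, p.1 j else p.1 i, p.2)
  have hL : IsLinearMap ℝ L := by
    constructor
    · intro p q
      refine Prod.ext (funext fun i => ?_) rfl
      show (if i = 0 then - ∑ j, (p.1 j + q.1 j) else p.1 i + q.1 i) =
        (if i = 0 then - ∑ j, p.1 j else p.1 i) + (if i = 0 then - ∑ j, q.1 j else q.1 i)
      split_ifs
      · rw [Finset.sum_add_distrib]
        ring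
      · rfl
    · intro r p
      refine Prod.ext (funext fun i => ?_) rfl
      show (if i = 0 then - ∑ j, (r * p.1 j) else r * p.1 i) =
        r * (if i = 0 then - ∑ j, p.1 j else p.1 i)
      split_ifs
      · rw [← Finset.mul_sum]
        ring
      · rfl
  have hT : ∀ p, T p = L p + (fun i => if i = 0 then t else 0, 0) := by
    intro p
    refine Prod.ext (funext fun i => ?_) (by simp [T, L])
    show (if i = 0 then t - ∑ j, p.1 j else p.1 i) =
      (if i = 0 then - ∑ j, p.1 j else p.1 i) + (if i = 0 then t else 0)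
    split_ifs <;> ring
  have hTsum : ∀ p, ∑ i, (T p).1 i = t - p.1 0 := by
    intro p
    show ∑ i, (if i = 0 then t - ∑ j, p.1 j else p.1 i) = _
    rw [sum_ite]
    ring
  have hTT : ∀ p, T (T p) = p := by
    intro p
    refine Prod.ext (funext fun i => ?_) rfl
    show (if i = 0 then t - ∑ j, (T p).1 j else (if i = 0 then t - ∑ j, p.1 j else p.1 i)) = p.1 i
    rw [hTsum]
    split_ifs with hi
    · rw [hi]
      ring
    · rfl
  have hT0 : ∀ p, (T p).1 0 = t - ∑ j, p.1 j := fun p => by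
    show (if (0 : Fin (k + 1)) = 0 then t - ∑ j, p.1 j else p.1 0) = _
    rw [if_pos rfl]
  have hTi : ∀ p, ∀ i : Fin (k + 1), i ≠ 0 → (T p).1 i = p.1 i := fun p i hi => by
    show (if i = 0 then t - ∑ j, p.1 j else p.1 i) = _
    rw [if_neg hi]
  -- the other affine function
  set s' : Fin (k + 2) → ℝ := fun i => s (Equiv.swap 0 1 i) with hs'
  have hs0 : s' 0 = s 1 := by simp [hs']
  have hs1 : s' 1 = s 0 := by simp [hs']
  have hs2 : ∀ i : Fin k, s' i.succ.succ = s i.succ.succ := by
    intro i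
    have h1 : i.succ.succ ≠ (0 : Fin (k + 2)) := Fin.succ_ne_zero _
    have h2 : i.succ.succ ≠ (1 : Fin (k + 2)) := by
      rw [← Fin.succ_zero_eq_one]
      exact fun h => Fin.succ_ne_zero i (Fin.succ_injective _ h)
    simp only [hs', Equiv.swap_apply_of_ne_of_ne h1 h2]
  have haff : ∀ p, affT t s' (T p).1 = affT t s p.1 := by
    intro p
    unfold affT
    rw [hTsum, Fin.sum_univ_succ, Fin.sum_univ_succ (fun i => s i.succ * p.1 i),
      Fin.succ_zero_eq_one, hs0, hs1]
    have h1 : ∀ i : Fin k, s' i.succ.succ * (T p).1 i.succ = s i.succ.succ * p.1 i.succ := by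
      intro i
      rw [hs2, hTi p _ (Fin.succ_ne_zero i)]
    simp only [h1]
    rw [hT0]
    ring
  -- the facet
  have hF : T '' (MP k m t s ∩ {p | ∑ i, p.1 i = t}) = MP k m t s' ∩ {p | p.1 0 = 0} := by
    have key : ∀ p, p ∈ MP k m t s ∩ {p | ∑ i, p.1 i = t} ↔
        T p ∈ MP k m t s' ∩ {p | p.1 0 = 0} := by
      intro p
      constructor
      · rintro ⟨⟨h1, h2, h3, h4⟩, h5⟩
        have h5' : ∑ i, p.1 i = t := h5
        refine ⟨⟨fun i => ?_, ?_, h3, ?_⟩, ?_⟩
        · by_cases hi : i = 0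
          · rw [hi, hT0]
            linarith
          · rw [hTi p i hi]
            exact h1 i
        · rw [hTsum]
          linarith [h1 0]
        · rw [haff]
          exact h4
        · show (T p).1 0 = 0
          rw [hT0]
          linarith
      · rintro ⟨⟨h1, h2, h3, h4⟩, h5⟩
        have h5' : (T p).1 0 = 0 := h5
        rw [hT0] at h5'
        rw [hTsum] at h2
        rw [haff] at h4
        refine ⟨⟨fun i => ?_, ?_, h3, h4⟩, ?_⟩
        · by_cases hi : i = 0
          · rw [hi]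
            linarith
          · rw [← hTi p i hi]
            exact h1 i
        · linarith
        · show ∑ i, p.1 i = t
          linarith
    ext q
    constructor
    · rintro ⟨p, hp, rfl⟩
      exact (key p).1 hp
    · intro hq
      refine ⟨T q, (key (T q)).2 ?_, hTT q⟩
      rw [hTT]
      exact hq
  have hH : (volume : Measure ((Fin (k + 1) → ℝ) × (Fin (m + 1) → ℝ))).IsAddHaarMeasure :=
    Measure.prod.instIsAddHaarMeasure (volume : Measure (Fin (k + 1) → ℝ))
      (volume : Measure (Fin (m + 1) → ℝ))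
  have hv := vol_inv (volume : Measure ((Fin (k + 1) → ℝ) × (Fin (m + 1) → ℝ))) hL _ hT hTT
    (coneOver o (MP k m t s ∩ {p | ∑ i, p.1 i = t}))
  rw [← hv, cone_image hL _ hT, hF, h k m t s' ht 0 (T o) (by rw [hT0]; linarith), hT0]
  have hsame : (fun i => s' ((Fin.succ 0 : Fin (k + 2)).succAbove i)) =
      fun i => s ((0 : Fin (k + 2)).succAbove i) := by
    funext i
    refine Fin.cases ?_ (fun i => ?_) i
    · show s' ((Fin.succ 0 : Fin (k + 2)).succAbove 0) = s ((0 : Fin (k + 2)).succAbove 0)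
      rw [Fin.succAbove_zero, Fin.succ_zero_eq_one]
      have : (1 : Fin (k + 2)).succAbove 0 = 0 := by simp
      rw [this, hs0]
    · show s' ((Fin.succ 0 : Fin (k + 2)).succAbove i.succ) =
        s ((0 : Fin (k + 2)).succAbove i.succ)
      rw [Fin.succAbove_zero, Fin.succ_succAbove_succ, Fin.succAbove_zero, hs2]
  unfold volI
  rw [hsame]

theorem modJ0 (h : MODJ) : MODJ0 := by
  intro k m t s ht o ho
  let T : (Fin (k + 1) → ℝ) × (Fin (m + 1) → ℝ) → (Fin (k + 1) → ℝ) × (Fin (m + 1) → ℝ) :=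
    fun p => (p.1, fun i => if i = 0 then affT t s p.1 - ∑ j, p.2 j else p.2 i)
  let L : (Fin (k + 1) → ℝ) × (Fin (m + 1) → ℝ) → (Fin (k + 1) → ℝ) × (Fin (m + 1) → ℝ) :=
    fun p => (p.1, fun i => if i = 0 then
      s 0 * (- ∑ j, p.1 j) + ∑ j, s j.succ * p.1 j - ∑ j, p.2 j else p.2 i)
  have hL : IsLinearMap ℝ L := by
    constructor
    · intro p q
      refine Prod.ext rfl (funext fun i => ?_)
      show (if i = 0 then s 0 * (- ∑ j, (p.1 j + q.1 j)) + ∑ j, s j.succ * (p.1 j + q.1 j) -
          ∑ j, (p.2 j + q.2 j) else p.2 i + q.2 i) =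
        (if i = 0 then s 0 * (- ∑ j, p.1 j) + ∑ j, s j.succ * p.1 j - ∑ j, p.2 j else p.2 i) +
        (if i = 0 then s 0 * (- ∑ j, q.1 j) + ∑ j, s j.succ * q.1 j - ∑ j, q.2 j else q.2 i)
      split_ifs
      · simp only [mul_add, Finset.sum_add_distrib]
        ring
      · rfl
    · intro r p
      refine Prod.ext rfl (funext fun i => ?_)
      show (if i = 0 then s 0 * (- ∑ j, (r * p.1 j)) + ∑ j, s j.succ * (r * p.1 j) -
          ∑ j, (r * p.2 j) else r * p.2 i) =
        r * (if i = 0 then s 0 * (- ∑ j, p.1 j) + ∑ j, s j.succ * p.1 j - ∑ j, p.2 j else p.2 i)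
      split_ifs
      · have h1 : ∀ j, s (Fin.succ j) * (r * p.1 j) = r * (s j.succ * p.1 j) := fun j => by ring
        simp only [h1, ← Finset.mul_sum]
        ring
      · rfl
  have hT : ∀ p, T p = L p + (0, fun i => if i = 0 then s 0 * t else 0) := by
    intro p
    refine Prod.ext (by simp [T, L]) (funext fun i => ?_)
    show (if i = 0 then affT t s p.1 - ∑ j, p.2 j else p.2 i) =
      (if i = 0 then s 0 * (- ∑ j, p.1 j) + ∑ j, s j.succ * p.1 j - ∑ j, p.2 j else p.2 i) +
        (if i = 0 then s 0 * t else 0)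
    unfold affT
    split_ifs <;> ring
  have hTsum : ∀ p, ∑ i, (T p).2 i = affT t s p.1 - p.2 0 := by
    intro p
    show ∑ i, (if i = 0 then affT t s p.1 - ∑ j, p.2 j else p.2 i) = _
    rw [sum_ite]
    ring
  have hTT : ∀ p, T (T p) = p := by
    intro p
    refine Prod.ext rfl (funext fun i => ?_)
    show (if i = 0 then affT t s p.1 - ∑ j, (T p).2 j else
      (if i = 0 then affT t s p.1 - ∑ j, p.2 j else p.2 i)) = p.2 i
    rw [hTsum]
    split_ifs with hi
    · rw [hi]
      ring
    · rfl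
  have hT0 : ∀ p, (T p).2 0 = affT t s p.1 - ∑ j, p.2 j := fun p => by
    show (if (0 : Fin (m + 1)) = 0 then affT t s p.1 - ∑ j, p.2 j else p.2 0) = _
    rw [if_pos rfl]
  have hTi : ∀ p, ∀ i : Fin (m + 1), i ≠ 0 → (T p).2 i = p.2 i := fun p i hi => by
    show (if i = 0 then affT t s p.1 - ∑ j, p.2 j else p.2 i) = _
    rw [if_neg hi]
  have hT1 : ∀ p, (T p).1 = p.1 := fun p => rfl
  have hF : T '' (MP k m t s ∩ {p | ∑ j, p.2 j = affT t s p.1}) =
      MP k m t s ∩ {p | p.2 0 = 0} := by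
    have key : ∀ p, p ∈ MP k m t s ∩ {p | ∑ j, p.2 j = affT t s p.1} ↔
        T p ∈ MP k m t s ∩ {p | p.2 0 = 0} := by
      intro p
      constructor
      · rintro ⟨⟨h1, h2, h3, h4⟩, h5⟩
        have h5' : ∑ j, p.2 j = affT t s p.1 := h5
        refine ⟨⟨h1, h2, fun i => ?_, ?_⟩, ?_⟩
        · by_cases hi : i = 0
          · rw [hi, hT0]
            linarith
          · rw [hTi p i hi]
            exact h3 i
        · rw [hTsum, hT1]
          linarith [h3 0]
        · show (T p).2 0 = 0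
          rw [hT0]
          linarith
      · rintro ⟨⟨h1, h2, h3, h4⟩, h5⟩
        have h5' : (T p).2 0 = 0 := h5
        rw [hT0] at h5'
        rw [hTsum, hT1] at h4
        refine ⟨⟨h1, h2, fun i => ?_, ?_⟩, ?_⟩
        · by_cases hi : i = 0
          · rw [hi]
            linarith
          · rw [← hTi p i hi]
            exact h3 i
        · linarith
        · show ∑ j, p.2 j = affT t s p.1
          linarith
    ext q
    constructor
    · rintro ⟨p, hp, rfl⟩
      exact (key p).1 hp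
    · intro hq
      refine ⟨T q, (key (T q)).2 ?_, hTT q⟩
      rw [hTT]
      exact hq
  have hH : (volume : Measure ((Fin (k + 1) → ℝ) × (Fin (m + 1) → ℝ))).IsAddHaarMeasure :=
    Measure.prod.instIsAddHaarMeasure (volume : Measure (Fin (k + 1) → ℝ))
      (volume : Measure (Fin (m + 1) → ℝ))
  have hv := vol_inv (volume : Measure ((Fin (k + 1) → ℝ) × (Fin (m + 1) → ℝ))) hL _ hT hTT
    (coneOver o (MP k m t s ∩ {p | ∑ j, p.2 j = affT t s p.1}))
  rw [← hv, cone_image hL _ hT, hF, h k m t s ht 0 (T o) (by rw [hT0]; linarith), hT0]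

end Pool.Agent.NP2
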