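import Pool.Agent.Lib.NP2.Pos

/-!
# Row MONO: for a unique smallest `ρ i` the criterion is a threshold
-/

set_option autoImplicit false

open MeasureTheory Set Module Filter
open scoped RealInnerProductSpace Topology
open Pool.Agent.LogMinkowski Pool.Agent.BM

namespace Pool.Agent.NP2

/-- If the smallest `ρ i` is attained once, the criterion holds for all larger `w`. -/
def MONO : Prop := ∀ (k m : ℕ) (ρ V : Fin (k + 2) → ℝ), (∀ i, 0 < V i) →
  (∃ i, ∀ j, j ≠ i → ρ i < ρ j) → ∀ w w' : ℝ, Crit k m ρ V w → w ≤ w' → Crit k m ρ V w'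

namespace MonoRow

theorem aff_const_sub {r : ℕ} (C : ℝ) (ρ : Fin (r + 1) → ℝ) (σ : Fin r → ℝ) :
    aff (fun i => C - ρ i) σ = C - aff ρ σ := by
  unfold aff
  simp only [sub_mul, Finset.sum_sub_distrib, ← Finset.mul_sum]
  ring

theorem aff_mono {r : ℕ} {s s' : Fin (r + 1) → ℝ} (h : ∀ i, s i ≤ s' i) {σ : Fin r → ℝ}
    (hσ : σ ∈ Sx r) : aff s σ ≤ aff s' σ := by
  unfold aff
  refine add_le_add (mul_le_mul_of_nonneg_right (h 0) (by linarith [hσ.2])) ?_
  exact Finset.sum_le_sum fun i _ => mul_le_mul_of_nonneg_right (h _) (hσ.1 i)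

theorem aff_const {r : ℕ} (e : ℝ) (σ : Fin r → ℝ) : aff (fun _ => e) σ = e := by
  unfold aff
  rw [← Finset.mul_sum]
  ring

theorem pp_mono (q : ℕ) {x y : ℝ} (h : x ≤ y) : pp q x ≤ pp q y := by
  unfold pp
  by_cases hx : 0 ≤ x
  · rw [if_pos hx, if_pos (hx.trans h)]
    exact pow_le_pow_left₀ hx h q
  · rw [if_neg hx]
    split_ifs with hy
    · exact pow_nonneg hy q
    · exact le_rfl

theorem mom_mono {r : ℕ} (q : ℕ) {s s' : Fin (r + 1) → ℝ} (h : ∀ i, s i ≤ s' i) :
    Mom q s ≤ Mom q s' := by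
  unfold Mom
  exact setIntegral_mono_on (integrableOn_pp q s) (integrableOn_pp q s')
    (isCompact_Sx r).measurableSet fun σ hσ => pp_mono q (aff_mono h hσ)

theorem mom_le {r : ℕ} (q : ℕ) {s : Fin (r + 1) → ℝ} {e : ℝ} (he : 0 ≤ e) (h : ∀ i, s i ≤ e) :
    Mom q s ≤ e ^ q * (volume (Sx r)).toReal := by
  refine (mom_mono q (s' := fun _ => e) h).trans ?_
  unfold Mom
  simp only [aff_const]
  rw [setIntegral_const]
  unfold pp
  rw [if_pos he, smul_eq_mul, mul_comm]
  rfl

theorem null_level {r : ℕ} (ρ : Fin (r + 1) → ℝ) (C : ℝ) (h : ∃ i j, ρ i ≠ ρ j) :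
    volume {σ : Fin r → ℝ | aff ρ σ = C} = 0 := by
  by_cases hne : ∃ σ0 : Fin r → ℝ, aff ρ σ0 = C
  swap
  · have : {σ : Fin r → ℝ | aff ρ σ = C} = ∅ := by
      ext σ
      simp only [mem_ofPred_eq, mem_empty_iff_false, iff_false]
      exact fun h => hne ⟨σ, h⟩
    rw [this, measure_empty]
  · obtain ⟨σ0, hσ0⟩ := hne
    let S : AffineSubspace ℝ (Fin r → ℝ) :=
      { carrier := {σ | aff ρ σ = C}
        smul_vsub_vadd_mem' := by
          intro c p1 p2 p3 h1 h2 h3
          simp only [mem_ofPred_eq] at h1 h2 h3 ⊢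
          have : aff ρ (c • (p1 -ᵥ p2) +ᵥ p3) = c * (aff ρ p1 - aff ρ p2) + aff ρ p3 := by
            unfold aff
            simp only [vsub_eq_sub, vadd_eq_add, Pi.add_apply, Pi.smul_apply, Pi.sub_apply,
              smul_eq_mul, mul_add, mul_sub, Finset.sum_add_distrib, Finset.sum_sub_distrib,
              Finset.mul_sum]
            have e1 : ∀ x : Fin r → ℝ, ∑ i, ρ (Fin.succ i) * (c * x i) =
                ∑ i, c * (ρ (Fin.succ i) * x i) := fun x =>
              Finset.sum_congr rfl fun i _ => by ring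
            have e2 : ∀ x : Fin r → ℝ, ∑ i, ρ 0 * (c * x i) = ∑ i, c * (ρ 0 * x i) := fun x =>
              Finset.sum_congr rfl fun i _ => by ring
            simp only [e1, e2]
            ring
          rw [this, h1, h2, h3]
          ring }
    have hS : S ≠ ⊤ := by
      intro htop
      have hall : ∀ σ : Fin r → ℝ, aff ρ σ = C := fun σ => by
        have : σ ∈ (S : Set (Fin r → ℝ)) := by rw [htop]; trivial
        exact this
      have h0 : ρ 0 = C := by
        have := hall 0
        unfold aff at this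
        simpa using this
      have h1 : ∀ i : Fin r, ρ i.succ = C := fun i => by
        have := hall (Pi.single i 1)
        unfold aff at this
        simp only [Pi.single_apply, mul_ite, mul_one, mul_zero] at this
        simpa using this
      have h2 : ∀ i, ρ i = C := fun i => Fin.cases h0 h1 i
      obtain ⟨i, j, hij⟩ := h
      exact hij ((h2 i).trans (h2 j).symm)
    exact Measure.addHaar_affineSubspace volume S hS

theorem continuousAt_pp {q : ℕ} {x : ℝ} (h : q ≠ 0 ∨ x ≠ 0) : ContinuousAt (pp q) x := by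
  rcases lt_trichotomy x 0 with hx | hx | hx
  · have : pp q =ᶠ[𝓝 x] fun _ => 0 := by
      filter_upwards [gt_mem_nhds hx] with y hy
      unfold pp
      rw [if_neg (not_le.2 hy)]
    exact continuousAt_const.congr this.symm
  · have hq : q ≠ 0 := h.resolve_right (by simpa using hx)
    subst hx
    have h1 : pp q = fun x => (max x 0) ^ q := by
      funext y
      unfold pp
      split_ifs with hy
      · rw [max_eq_left hy]
      · rw [max_eq_right (not_le.1 hy).le, zero_pow hq]
    rw [h1]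
    fun_prop
  · have : pp q =ᶠ[𝓝 x] fun y => y ^ q := by
      filter_upwards [lt_mem_nhds hx] with y hy
      unfold pp
      rw [if_pos hy.le]
    exact (continuousAt_id.pow q).congr this.symm

theorem pp_le_abs (q : ℕ) (x : ℝ) : pp q x ≤ |x| ^ q := by
  unfold pp
  split_ifs with h
  · rw [abs_of_nonneg h]
  · positivity

theorem continuousAt_mom {r : ℕ} (q : ℕ) (ρ : Fin (r + 1) → ℝ) (C : ℝ)
    (h : q ≠ 0 ∨ ∃ i j, ρ i ≠ ρ j) : ContinuousAt (fun C' => Mom q (fun i => C' - ρ i)) C := by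
  unfold Mom
  have hfin : IsFiniteMeasure (volume.restrict (Sx r)) :=
    ⟨by rw [Measure.restrict_apply_univ]; exact (isCompact_Sx r).measure_lt_top⟩
  obtain ⟨S, hS⟩ : ∃ S : ℝ, ∀ σ ∈ Sx r, |aff ρ σ| ≤ S := by
    obtain ⟨S, hS⟩ := (isCompact_Sx r).exists_bound_of_continuousOn (continuous_aff ρ).continuousOn
    exact ⟨S, fun σ hσ => hS σ hσ⟩
  simp only [aff_const_sub]
  refine continuousAt_of_dominated (bound := fun _ => (|C| + 1 + S) ^ q) ?_ ?_ ?_ ?_
  · refine Filter.Eventually.of_forall fun C' => ?_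
    exact ((measurable_pp q).comp
      (continuous_const.sub (continuous_aff ρ)).measurable).aestronglyMeasurable
  · have h1 : ∀ᶠ C' in 𝓝 C, |C' - C| < 1 := by
      have := Metric.ball_mem_nhds C one_pos
      filter_upwards [this] with y hy
      rwa [Metric.mem_ball, Real.dist_eq] at hy
    filter_upwards [h1] with C' hC'
    refine (ae_restrict_iff' (isCompact_Sx r).measurableSet).2
      (Filter.Eventually.of_forall fun σ hσ => ?_)
    rw [Real.norm_eq_abs, abs_of_nonneg (pp_nonneg _ _)]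
    refine (pp_le_abs q _).trans (pow_le_pow_left₀ (abs_nonneg _) ?_ q)
    have h2 : |C' - aff ρ σ| ≤ |C'| + |aff ρ σ| := abs_sub _ _
    have h3 : |C'| ≤ |C| + 1 := by
      have : |C'| ≤ |C' - C| + |C| := by
        have := abs_add_le (C' - C) C
        simpa using this
      linarith
    linarith [hS σ hσ]
  · exact integrable_const _
  · have h1 : ∀ᵐ σ ∂(volume.restrict (Sx r)), q ≠ 0 ∨ C - aff ρ σ ≠ 0 := by
      rcases h with h | h
      · exact Filter.Eventually.of_forall fun _ => Or.inl h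
      · have h2 : ∀ᵐ σ : Fin r → ℝ, aff ρ σ ≠ C := by
          rw [ae_iff]
          simpa using null_level ρ C h
        filter_upwards [ae_restrict_of_ae h2] with σ hσ
        exact Or.inr (sub_ne_zero.2 (Ne.symm hσ))
    filter_upwards [h1] with σ hσ
    have h2 : ContinuousAt (fun C' : ℝ => C' - aff ρ σ) C := by fun_prop
    exact ContinuousAt.comp (f := fun C' : ℝ => C' - aff ρ σ) (g := pp q)
      (continuousAt_pp hσ) h2

end MonoRow

open MonoRow in
theorem mono : MONO := by
  intro k m ρ V hV ⟨i0, hi0⟩ w w' ⟨C0, ⟨a, b, hab, ha, hb⟩, hw⟩ hww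
  -- the second smallest value
  obtain ⟨j0, hj0, hmin⟩ := Finset.exists_min_image (Finset.univ.erase i0) ρ (by
    obtain ⟨j, hj⟩ := exists_ne i0
    exact ⟨j, Finset.mem_erase.2 ⟨hj, Finset.mem_univ _⟩⟩)
  have hj0' : j0 ≠ i0 := (Finset.mem_erase.1 hj0).1
  have hmin' : ∀ j, j ≠ i0 → ρ j0 ≤ ρ j := fun j hj =>
    hmin j (Finset.mem_erase.2 ⟨hj, Finset.mem_univ _⟩)
  have hδ : 0 < ρ j0 - ρ i0 := sub_pos.2 (hi0 j0 hj0')
  have hC0 : ρ j0 < C0 := by
    by_cases hai : a = i0
    · exact (hmin' b (fun h => hab (hai.trans h.symm))).trans_lt hb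
    · exact (hmin' a hai).trans_lt ha
  set Φ : ℝ → ℝ := fun C => (m + 1) * Mom m (fun i => C - ρ i) *
    ∑ i, V i * (C - ρ i) / Mom (m + 1) (fun j => C - ρ (i.succAbove j)) with hΦ
  -- positivity of the denominators
  have hden : ∀ C, ρ j0 < C → ∀ i : Fin (k + 2), 0 < Mom (m + 1) (fun j => C - ρ (i.succAbove j)) := by
    intro C hC i
    apply posA
    by_cases hii : i = i0
    · obtain ⟨j', hj'⟩ := Fin.exists_succAbove_eq (show j0 ≠ i by rw [hii]; exact hj0')
      exact ⟨j', by show 0 < C - ρ (i.succAbove j'); rw [hj']; linarith⟩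
    · obtain ⟨j', hj'⟩ := Fin.exists_succAbove_eq (show i0 ≠ i from Ne.symm hii)
      exact ⟨j', by show 0 < C - ρ (i.succAbove j'); rw [hj']; linarith⟩
  have hcont : ∀ C, ρ j0 < C → ContinuousAt Φ C := by
    intro C hC
    have h1 : ContinuousAt (fun C' => Mom m (fun i => C' - ρ i)) C :=
      continuousAt_mom m ρ C (Or.inr ⟨i0, j0, by linarith⟩)
    have h2 : ∀ i : Fin (k + 2), ContinuousAt (fun C' => Mom (m + 1) (fun j => C' - ρ (i.succAbove j))) C :=
      fun i => continuousAt_mom (m + 1) (fun j => ρ (i.succAbove j)) C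
        (Or.inl (Nat.succ_ne_zero m))
    have h3 : ContinuousAt (fun C' => ∑ i, V i * (C' - ρ i) /
        Mom (m + 1) (fun j => C' - ρ (i.succAbove j))) C := by
      refine tendsto_finsetSum _ fun i _ => ?_
      exact ContinuousAt.div (by fun_prop) (h2 i) (hden C hC i).ne'
    exact (continuousAt_const.mul h1).mul h3
  -- the limit at the second smallest value
  set M0 : ℝ := Mom m (fun i => ρ j0 - ρ i) with hM0
  have hM0p : 0 < M0 := posA _ _ _ ⟨i0, hδ⟩
  set N : Fin (k + 2) → ℝ := fun f => Mom (m + 1) (fun j => ρ j0 - ρ (f.succAbove j)) with hN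
  have hNp : ∀ f, f ≠ i0 → 0 < N f := by
    intro f hf
    obtain ⟨j', hj'⟩ := Fin.exists_succAbove_eq (show i0 ≠ f from Ne.symm hf)
    exact posA _ _ _ ⟨j', by show 0 < ρ j0 - ρ (f.succAbove j'); rw [hj']; exact hδ⟩
  set K : ℝ := ∑ f ∈ Finset.univ.erase i0, V f * (ρ f - ρ j0) / N f with hK
  have hK0 : 0 ≤ K := Finset.sum_nonneg fun f hf => div_nonneg
    (mul_nonneg (hV f).le (sub_nonneg.2 (hmin' f (Finset.mem_erase.1 hf).1)))
    (hNp f (Finset.mem_erase.1 hf).1).le
  set v : ℝ := (volume (Sx k)).toReal with hv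
  have hv0 : 0 ≤ v := ENNReal.toReal_nonneg
  have hm1 : (0 : ℝ) < m + 1 := by positivity
  set A : ℝ := K + |w'| / ((m + 1) * M0) + 1 with hA
  have hA0 : 0 < A := by positivity
  set e : ℝ := min (min 1 (C0 - ρ j0)) (V i0 * (ρ j0 - ρ i0) / ((v + 1) * A)) with he
  have hVδ : 0 < V i0 * (ρ j0 - ρ i0) := mul_pos (hV i0) hδ
  have he0 : 0 < e := lt_min (lt_min one_pos (by linarith)) (by positivity)
  have he1 : e ≤ 1 := (min_le_left _ _).trans (min_le_left _ _)
  have he2 : e ≤ C0 - ρ j0 := (min_le_left _ _).trans (min_le_right _ _)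
  have he3 : e ≤ V i0 * (ρ j0 - ρ i0) / ((v + 1) * A) := min_le_right _ _
  set C1 : ℝ := ρ j0 + e with hC1
  have hC1' : ρ j0 < C1 := by linarith
  have hC10 : C1 ≤ C0 := by linarith
  have hbig : w' ≤ Φ C1 := by
    have h1 : M0 ≤ Mom m (fun i => C1 - ρ i) := mom_mono m fun i => by linarith
    have h2 : A ≤ V i0 * (C1 - ρ i0) / Mom (m + 1) (fun j => C1 - ρ (i0.succAbove j)) := by
      have h3 : Mom (m + 1) (fun j => C1 - ρ (i0.succAbove j)) ≤ e * (v + 1) := by
        have h4 := mom_le (m + 1) (s := fun j => C1 - ρ (i0.succAbove j)) he0.le (fun j => by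
          have := hmin' (i0.succAbove j) (Fin.succAbove_ne i0 j)
          linarith)
        refine h4.trans ?_
        have h5 : e ^ (m + 1) ≤ e := by
          rw [pow_succ]
          exact mul_le_of_le_one_left he0.le (pow_le_one₀ he0.le he1)
        exact mul_le_mul h5 (by linarith) hv0 he0.le
      rw [le_div_iff₀ (hden C1 hC1' i0)]
      have h6 : e * ((v + 1) * A) ≤ V i0 * (ρ j0 - ρ i0) := by
        rwa [le_div_iff₀ (by positivity)] at he3
      calc A * Mom (m + 1) (fun j => C1 - ρ (i0.succAbove j)) ≤ A * (e * (v + 1)) :=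
            mul_le_mul_of_nonneg_left h3 hA0.le
        _ = e * ((v + 1) * A) := by ring
        _ ≤ V i0 * (ρ j0 - ρ i0) := h6
        _ ≤ V i0 * (C1 - ρ i0) := mul_le_mul_of_nonneg_left (by linarith) (hV i0).le
    have h3 : -K ≤ ∑ f ∈ Finset.univ.erase i0, V f * (C1 - ρ f) /
        Mom (m + 1) (fun j => C1 - ρ (f.succAbove j)) := by
      rw [hK, ← Finset.sum_neg_distrib]
      refine Finset.sum_le_sum fun f hf => ?_
      have hf' := (Finset.mem_erase.1 hf).1
      have h4 : N f ≤ Mom (m + 1) (fun j => C1 - ρ (f.succAbove j)) :=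
        mom_mono (m + 1) fun j => by linarith
      have h5 : V f * (ρ f - ρ j0) / Mom (m + 1) (fun j => C1 - ρ (f.succAbove j)) ≤
          V f * (ρ f - ρ j0) / N f :=
        div_le_div_of_nonneg_left (mul_nonneg (hV f).le (sub_nonneg.2 (hmin' f hf')))
          (hNp f hf') h4
      have h6 : -(V f * (ρ f - ρ j0) / Mom (m + 1) (fun j => C1 - ρ (f.succAbove j))) ≤
          V f * (C1 - ρ f) / Mom (m + 1) (fun j => C1 - ρ (f.succAbove j)) := by
        rw [← neg_div]
        refine div_le_div_of_nonneg_right ?_ (hden C1 hC1' f).le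
        rw [← mul_neg]
        exact mul_le_mul_of_nonneg_left (by linarith) (hV f).le
      linarith
    have h4 : |w'| / ((m + 1) * M0) ≤ ∑ i, V i * (C1 - ρ i) /
        Mom (m + 1) (fun j => C1 - ρ (i.succAbove j)) := by
      rw [← Finset.add_sum_erase Finset.univ _ (Finset.mem_univ i0)]
      linarith
    have h5 : (0 : ℝ) ≤ |w'| / ((m + 1) * M0) := by positivity
    calc w' ≤ |w'| := le_abs_self _
      _ = (m + 1) * M0 * (|w'| / ((m + 1) * M0)) := by
          rw [mul_div_cancel₀]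
          positivity
      _ ≤ Φ C1 := by
          rw [hΦ]
          refine mul_le_mul (mul_le_mul_of_nonneg_left h1 hm1.le) h4 h5 ?_
          exact mul_nonneg hm1.le (hM0p.le.trans h1)
  have hw' : Φ C0 ≤ w' := by
    have : Φ C0 = w := hw.symm
    rw [this]
    exact hww
  obtain ⟨C, hC, hCw⟩ := intermediate_value_Icc' hC10
    (fun C hC => (hcont C (hC1'.trans_le hC.1)).continuousWithinAt) ⟨hw', hbig⟩
  refine ⟨C, ⟨i0, j0, hj0'.symm, ?_, ?_⟩, hCw.symm⟩
  · linarith [hC.1]
  · linarith [hC.1]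

end Pool.Agent.NP2
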