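import Pool.Agent.Lib.NP2.Props

/-!
# Rows POSA, POSB, PTS
-/

set_option autoImplicit false

open MeasureTheory Set Module
open scoped RealInnerProductSpace Topology
open Pool.Agent.LogMinkowski Pool.Agent.BM

namespace Pool.Agent.NP2

theorem bary {r : ℕ} (s : Fin (r + 1) → ℝ) (j : Fin (r + 1)) (hj : 0 < s j) {t : ℝ} (ht : 0 < t) :
    ∃ x : Fin (r + 1) → ℝ, (∀ i, 0 < x i) ∧ ∑ i, x i = t ∧ 0 < ∑ i, s i * x i := by
  have h1 : ∀ᶠ ε : ℝ in 𝓝 0, (r + 1) * ε < t := by
    have hc : Continuous fun ε : ℝ => ((r : ℝ) + 1) * ε := by fun_prop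
    apply hc.continuousAt.eventually_lt continuousAt_const
    simpa using ht
  have h2 : ∀ᶠ ε : ℝ in 𝓝 0, 0 < ε * ∑ i, s i + (t - (r + 1) * ε) * s j := by
    have hc : Continuous fun ε : ℝ => ε * ∑ i, s i + (t - ((r : ℝ) + 1) * ε) * s j := by fun_prop
    apply continuousAt_const.eventually_lt hc.continuousAt
    simpa using mul_pos ht hj
  obtain ⟨ε, ⟨hε1, hε2⟩, hε3⟩ := (((h1.and h2).filter_mono nhdsWithin_le_nhds).and
    (self_mem_nhdsWithin : Ioi (0 : ℝ) ∈ 𝓝[>] (0 : ℝ))).exists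
  have hε : (0 : ℝ) < ε := hε3
  refine ⟨fun i => ε + if i = j then t - (r + 1) * ε else 0, fun i => ?_, ?_, ?_⟩
  · show 0 < ε + if i = j then t - (r + 1) * ε else 0
    split_ifs
    · linarith
    · linarith
  · rw [Finset.sum_add_distrib, Finset.sum_ite_eq' Finset.univ j]
    simp
  · have : ∑ i, s i * (ε + if i = j then t - (r + 1) * ε else 0) =
        ε * ∑ i, s i + (t - (r + 1) * ε) * s j := by
      simp only [mul_add, Finset.sum_add_distrib, mul_ite, mul_zero]
      rw [Finset.sum_ite_eq' Finset.univ j, ← Finset.sum_mul]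
      simp
      ring
    rw [this]
    exact hε2

theorem pts : PTS := by
  intro k s t ht f j hjf hj
  obtain ⟨j', rfl⟩ := Fin.exists_succAbove_eq hjf
  obtain ⟨y, hy1, hy2, hy3⟩ := bary (fun i => s (f.succAbove i)) j' hj ht
  refine ⟨Fin.insertNth f 0 y, ⟨?_, ?_, ?_, ?_⟩, bary s _ hj ht⟩
  · simp
  · intro i hi
    obtain ⟨i', rfl⟩ := Fin.exists_succAbove_eq hi
    rw [Fin.insertNth_apply_succAbove]
    exact hy1 i'
  · rw [Fin.sum_univ_succAbove _ f]
    simp [hy2]
  · rw [Fin.sum_univ_succAbove _ f]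
    simpa using hy3

theorem pp_nonneg (q : ℕ) (x : ℝ) : 0 ≤ pp q x := by
  unfold pp
  split_ifs with h
  · exact pow_nonneg h q
  · exact le_rfl

theorem measurable_pp (q : ℕ) : Measurable (pp q) := by
  unfold pp
  exact Measurable.ite (measurableSet_le measurable_const measurable_id)
    (measurable_id.pow_const q) measurable_const

theorem continuous_aff {r : ℕ} (s : Fin (r + 1) → ℝ) : Continuous (aff s) := by
  unfold aff
  fun_prop

theorem isCompact_Sx (r : ℕ) : IsCompact (Sx r) := by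
  have hcl : IsClosed (Sx r) := by
    have : Sx r = (⋂ i, {σ : Fin r → ℝ | 0 ≤ σ i}) ∩ {σ | ∑ i, σ i ≤ 1} := by
      ext σ; simp [Sx]
    rw [this]
    refine (isClosed_iInter fun i => isClosed_le continuous_const (by fun_prop)).inter
      (isClosed_le (by fun_prop) continuous_const)
  refine (isCompact_univ_pi fun _ : Fin r => isCompact_Icc (a := (0 : ℝ)) (b := 1)).of_isClosed_subset
    hcl ?_
  intro σ hσ i _
  refine ⟨hσ.1 i, ?_⟩
  exact (Finset.single_le_sum (f := σ) (fun i _ => hσ.1 i) (Finset.mem_univ i)).trans hσ.2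

theorem integrableOn_pp {r : ℕ} (q : ℕ) (s : Fin (r + 1) → ℝ) :
    IntegrableOn (fun σ => pp q (aff s σ)) (Sx r) := by
  have h1 : IntegrableOn (fun σ => |aff s σ| ^ q) (Sx r) :=
    ((continuous_aff s).abs.pow q).continuousOn.integrableOn_compact (isCompact_Sx r)
  refine Integrable.mono' h1 ((measurable_pp q).comp (continuous_aff s).measurable).aestronglyMeasurable
    (Filter.Eventually.of_forall fun σ => ?_)
  rw [Real.norm_eq_abs, abs_of_nonneg (pp_nonneg _ _)]
  unfold pp
  split_ifs with h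
  · rw [abs_of_nonneg h]
  · positivity

theorem posA : POSA := by
  intro r q s ⟨j, hj⟩
  unfold Mom
  rw [setIntegral_pos_iff_support_of_nonneg_ae (Filter.Eventually.of_forall fun σ => pp_nonneg _ _)
    (integrableOn_pp q s)]
  set U : Set (Fin r → ℝ) := {σ | (∀ i, 0 < σ i) ∧ ∑ i, σ i < 1 ∧ 0 < aff s σ} with hU
  have hUo : IsOpen U := by
    have : U = (⋂ i, {σ : Fin r → ℝ | 0 < σ i}) ∩ ({σ | ∑ i, σ i < 1} ∩ {σ | 0 < aff s σ}) := by
      ext σ; simp [hU]
    rw [this]
    refine (isOpen_iInter_of_finite fun i => isOpen_lt continuous_const (by fun_prop)).inter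
      ((isOpen_lt (by fun_prop) continuous_const).inter
        (isOpen_lt continuous_const (continuous_aff s)))
  have hUn : U.Nonempty := by
    obtain ⟨x, hx1, hx2, hx3⟩ := bary s j hj one_pos
    rw [Fin.sum_univ_succ] at hx2 hx3
    refine ⟨fun i => x i.succ, fun i => hx1 _, ?_, ?_⟩
    · have := hx1 0
      linarith
    · unfold aff
      have : x 0 = 1 - ∑ i, x (Fin.succ i) := by linarith
      rw [← this]
      exact hx3
  refine (hUo.measure_pos volume hUn).trans_le (measure_mono ?_)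
  rintro σ ⟨h1, h2, h3⟩
  refine ⟨?_, fun i => (h1 i).le, h2.le⟩
  rw [Function.mem_support]
  unfold pp
  rw [if_pos h3.le]
  exact (pow_pos h3 q).ne'

theorem posB : POSB := by
  intro r q s hs
  unfold Mom
  refine setIntegral_eq_zero_of_forall_eq_zero fun σ hσ => ?_
  have h1 : aff s σ ≤ 0 := by
    unfold aff
    have h2 : s 0 * (1 - ∑ i, σ i) ≤ 0 :=
      mul_nonpos_of_nonpos_of_nonneg (hs 0) (by linarith [hσ.2])
    have h3 : ∑ i, s i.succ * σ i ≤ 0 :=
      Finset.sum_nonpos fun i _ => mul_nonpos_of_nonpos_of_nonneg (hs _) (hσ.1 i)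
    linarith
  unfold pp
  split_ifs with h
  · rw [le_antisymm h1 h]
    simp
  · rfl

end Pool.Agent.NP2
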