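import Pool.Agent.Lib.MP_36b0a5_gt.PlHalf

/-!
# The logarithmic Minkowski problem for polytopes with `n + 2` facets (helper60)

Text: `/team-store/np2_text.md`.
`n = k + m + 2`; normals `u : Fin (k+2) → E n` (positively dependent, spanning a subspace of dimension
`k + 1`) and `v : Fin (m+2) → E n`.
-/

set_option autoImplicit false

open MeasureTheory Set Module
open scoped RealInnerProductSpace Nat
open Pool.Agent.LogMinkowski Pool.Agent.BM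

namespace Pool.Agent.NP2

noncomputable section

/-! ### Definitions used by the statement -/

/-- `x ^ q` for `x ≥ 0`, and `0` for `x < 0`. -/
def pp (q : ℕ) (x : ℝ) : ℝ := if 0 ≤ x then x ^ q else 0

/-- The simplex `σ ≥ 0`, `∑ σ ≤ 1`, in `ℝ ^ r`. -/
def Sx (r : ℕ) : Set (Fin r → ℝ) := {σ | (∀ i, 0 ≤ σ i) ∧ ∑ i, σ i ≤ 1}

/-- The affine function on the simplex with the value `s 0` at the vertex `0` and the values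
`s (i + 1)` at the unit vectors. -/
def aff {r : ℕ} (s : Fin (r + 1) → ℝ) (σ : Fin r → ℝ) : ℝ :=
  s 0 * (1 - ∑ i, σ i) + ∑ i, s i.succ * σ i

/-- The integral of the `q`-th power of the positive part of the affine function with the vertex
values `s` over the simplex. -/
def Mom {r : ℕ} (q : ℕ) (s : Fin (r + 1) → ℝ) : ℝ := ∫ σ in Sx r, pp q (aff s σ)

/-- The data: unit vectors `u`, `v`, distinct, spanning `ℝ ^ n`, with `∑ a_i u_i = 0` and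
`∑ b_j v_j + ∑ ρ_i a_i u_i = 0`, `a, b > 0`. -/
structure Dat (k m : ℕ) (u : Fin (k + 2) → E (k + m + 2)) (v : Fin (m + 2) → E (k + m + 2))
    (a : Fin (k + 2) → ℝ) (b : Fin (m + 2) → ℝ) (ρ : Fin (k + 2) → ℝ) : Prop where
  unit : ∀ i, ‖Fin.append u v i‖ = 1
  inj : Function.Injective (Fin.append u v)
  apos : ∀ i, 0 < a i
  bpos : ∀ j, 0 < b j
  relu : ∑ i, a i • u i = 0
  relv : ∑ j, b j • v j + ∑ i, (ρ i * a i) • u i = 0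
  span : Submodule.span ℝ (range (Fin.append u v)) = ⊤

/-! ### Rows -/

/-- H-polytopes -/
def HPOLY : Prop := ∀ (n N : ℕ), 2 ≤ n → ∀ (u : Fin N → E n) (h : Fin N → ℝ),
  (∀ i, ‖u i‖ = 1) → Function.Injective u → (∀ i, 0 < h i) →
  Bornology.IsBounded {y : E n | ∀ i, ⟪u i, y⟫ ≤ h i} →
  (∀ i, ∃ y, ⟪u i, y⟫ = h i ∧ ∀ j, j ≠ i → ⟪u j, y⟫ < h j) →
  IsPolytope {y : E n | ∀ i, ⟪u i, y⟫ ≤ h i} ∧
  (∀ v, IsFacetNormal {y : E n | ∀ i, ⟪u i, y⟫ ≤ h i} v ↔ ∃ i, u i = v) ∧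
  ∀ i, face {y : E n | ∀ i, ⟪u i, y⟫ ≤ h i} (u i) =
    {y | (∀ j, ⟪u j, y⟫ ≤ h j) ∧ ⟪u i, y⟫ = h i}

/-- the volume of a cone -/
def CONE : Prop := ∀ (Y : Type) [NormedAddCommGroup Y] [NormedSpace ℝ Y] [FiniteDimensional ℝ Y]
  [MeasurableSpace Y] [BorelSpace Y] (μ : Measure Y) [μ.IsAddHaarMeasure] (B : Set Y),
  IsCompact B → ∀ o : ℝ × Y, 0 < o.1 →
  ((volume : Measure ℝ).prod μ) (coneOver o ((fun y => ((0 : ℝ), y)) '' B)) =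
    ENNReal.ofReal (o.1 / (finrank ℝ Y + 1)) * μ B

/-- the affine function on the simplex `∑ σ ≤ t` -/
def affT {r : ℕ} (t : ℝ) (s : Fin (r + 1) → ℝ) (σ : Fin r → ℝ) : ℝ :=
  s 0 * (t - ∑ i, σ i) + ∑ i, s i.succ * σ i

/-- the model polytope -/
def MP (k m : ℕ) (t : ℝ) (s : Fin (k + 2) → ℝ) : Set ((Fin (k + 1) → ℝ) × (Fin (m + 1) → ℝ)) :=
  {p | (∀ i, 0 ≤ p.1 i) ∧ ∑ i, p.1 i ≤ t ∧ (∀ j, 0 ≤ p.2 j) ∧ ∑ j, p.2 j ≤ affT t s p.1}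

/-- the volume of a cone over a facet of the first kind -/
def volI (k m : ℕ) (t : ℝ) (s : Fin (k + 2) → ℝ) (f : Fin (k + 2)) (β : ℝ) : ℝ :=
  β * t ^ (k + m + 1) * Mom (m + 1) (fun i => s (f.succAbove i)) / ((k + m + 2) * (m + 1)!)

/-- the volume of a cone over a facet of the second kind -/
def volJ (k m : ℕ) (t : ℝ) (s : Fin (k + 2) → ℝ) (γ : ℝ) : ℝ :=
  γ * t ^ (k + m + 1) * Mom m s / ((k + m + 2) * m !)

def MODI : Prop := ∀ (k m : ℕ) (t : ℝ) (s : Fin (k + 2) → ℝ), 0 < t → ∀ (i : Fin (k + 1))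
  (o : (Fin (k + 1) → ℝ) × (Fin (m + 1) → ℝ)), 0 < o.1 i →
  (volume (coneOver o (MP k m t s ∩ {p | p.1 i = 0}))).toReal = volI k m t s i.succ (o.1 i)

def MODJ : Prop := ∀ (k m : ℕ) (t : ℝ) (s : Fin (k + 2) → ℝ), 0 < t → ∀ (j : Fin (m + 1))
  (o : (Fin (k + 1) → ℝ) × (Fin (m + 1) → ℝ)), 0 < o.2 j →
  (volume (coneOver o (MP k m t s ∩ {p | p.2 j = 0}))).toReal = volJ k m t s (o.2 j)

def MODI0 : Prop := ∀ (k m : ℕ) (t : ℝ) (s : Fin (k + 2) → ℝ), 0 < t →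
  ∀ (o : (Fin (k + 1) → ℝ) × (Fin (m + 1) → ℝ)), ∑ i, o.1 i < t →
  (volume (coneOver o (MP k m t s ∩ {p | ∑ i, p.1 i = t}))).toReal =
    volI k m t s 0 (t - ∑ i, o.1 i)

def MODJ0 : Prop := ∀ (k m : ℕ) (t : ℝ) (s : Fin (k + 2) → ℝ), 0 < t →
  ∀ (o : (Fin (k + 1) → ℝ) × (Fin (m + 1) → ℝ)), ∑ j, o.2 j < affT t s o.1 →
  (volume (coneOver o (MP k m t s ∩ {p | ∑ j, p.2 j = affT t s p.1}))).toReal =
    volJ k m t s (affT t s o.1 - ∑ j, o.2 j)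

/-- the polytope with the support numbers `h`, `h'` -/
def PH {k m : ℕ} (u : Fin (k + 2) → E (k + m + 2)) (v : Fin (m + 2) → E (k + m + 2))
    (h : Fin (k + 2) → ℝ) (h' : Fin (m + 2) → ℝ) : Set (E (k + m + 2)) :=
  {y | (∀ i, ⟪u i, y⟫ ≤ h i) ∧ ∀ j, ⟪v j, y⟫ ≤ h' j}

/-- the chart -/
def Psi {k m : ℕ} (u : Fin (k + 2) → E (k + m + 2)) (v : Fin (m + 2) → E (k + m + 2))
    (a : Fin (k + 2) → ℝ) (b : Fin (m + 2) → ℝ) (h : Fin (k + 2) → ℝ) (h' : Fin (m + 2) → ℝ)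
    (y : E (k + m + 2)) : (Fin (k + 1) → ℝ) × (Fin (m + 1) → ℝ) :=
  (fun i => a i.succ * (h i.succ - ⟪u i.succ, y⟫), fun j => b j.succ * (h' j.succ - ⟪v j.succ, y⟫))

/-- the chart is a bijection, it multiplies volumes by a constant, and maps the polytope onto the
model polytope -/
def CHART : Prop := ∀ (k m : ℕ) (u : Fin (k + 2) → E (k + m + 2)) (v : Fin (m + 2) → E (k + m + 2))
  (a : Fin (k + 2) → ℝ) (b : Fin (m + 2) → ℝ) (ρ : Fin (k + 2) → ℝ), Dat k m u v a b ρ →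
  ∃ D : ℝ, 0 < D ∧ ∀ (h : Fin (k + 2) → ℝ) (h' : Fin (m + 2) → ℝ),
    Function.Bijective (Psi u v a b h h') ∧
    (∀ (o y : E (k + m + 2)) (r : ℝ), Psi u v a b h h' (r • o + (1 - r) • y) =
      r • Psi u v a b h h' o + (1 - r) • Psi u v a b h h' y) ∧
    (∀ A : Set (E (k + m + 2)), volume (Psi u v a b h h' '' A) = ENNReal.ofReal D * volume A) ∧
    ∀ y, a 0 * (h 0 - ⟪u 0, y⟫) = ∑ i, a i * h i - ∑ i, (Psi u v a b h h' y).1 i ∧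
      b 0 * (h' 0 - ⟪v 0, y⟫) = (∑ j, b j * h' j + ∑ i, ρ i * (a i * h i)) -
        ρ 0 * (∑ i, a i * h i - ∑ i, (Psi u v a b h h' y).1 i) -
        ∑ i, ρ i.succ * (Psi u v a b h h' y).1 i - ∑ j, (Psi u v a b h h' y).2 j

/-- the cone volumes -/
def VOL : Prop := ∀ (k m : ℕ) (u : Fin (k + 2) → E (k + m + 2)) (v : Fin (m + 2) → E (k + m + 2))
  (a : Fin (k + 2) → ℝ) (b : Fin (m + 2) → ℝ) (ρ : Fin (k + 2) → ℝ), Dat k m u v a b ρ →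
  ∃ D : ℝ, 0 < D ∧ ∀ (h : Fin (k + 2) → ℝ) (h' : Fin (m + 2) → ℝ), (∀ i, 0 < h i) →
    (∀ j, 0 < h' j) → ∀ t C : ℝ, t = ∑ i, a i * h i →
    C * t = ∑ j, b j * h' j + ∑ i, ρ i * (a i * h i) →
    (∀ f, D * (volume (coneOver 0 (PH u v h h' ∩ {y | ⟪u f, y⟫ = h f}))).toReal =
      volI k m t (fun i => C - ρ i) f (a f * h f)) ∧
    ∀ f, D * (volume (coneOver 0 (PH u v h h' ∩ {y | ⟪v f, y⟫ = h' f}))).toReal =
      volJ k m t (fun i => C - ρ i) (b f * h' f)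

def POSA : Prop := ∀ (r q : ℕ) (s : Fin (r + 1) → ℝ), (∃ j, 0 < s j) → 0 < Mom q s

def POSB : Prop := ∀ (r q : ℕ) (s : Fin (r + 1) → ℝ), (∀ j, s j ≤ 0) → Mom (q + 1) s = 0

def PTS : Prop := ∀ (k : ℕ) (s : Fin (k + 2) → ℝ) (t : ℝ), 0 < t → ∀ f j : Fin (k + 2), j ≠ f →
  0 < s j → ∃ x : Fin (k + 2) → ℝ, (x f = 0 ∧ (∀ i, i ≠ f → 0 < x i) ∧ ∑ i, x i = t ∧
    0 < ∑ i, s i * x i) ∧ ∃ x' : Fin (k + 2) → ℝ, (∀ i, 0 < x' i) ∧ ∑ i, x' i = t ∧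
    0 < ∑ i, s i * x' i

/-- the criterion -/
def Crit (k m : ℕ) (ρ V : Fin (k + 2) → ℝ) (w : ℝ) : Prop :=
  ∃ C : ℝ, (∃ i j, i ≠ j ∧ ρ i < C ∧ ρ j < C) ∧
    w = (m + 1) * Mom m (fun i => C - ρ i) *
      ∑ i, V i * (C - ρ i) / Mom (m + 1) (fun j => C - ρ (i.succAbove j))

def FWD : Prop := ∀ (k m : ℕ) (u : Fin (k + 2) → E (k + m + 2)) (v : Fin (m + 2) → E (k + m + 2))
  (a : Fin (k + 2) → ℝ) (b : Fin (m + 2) → ℝ) (ρ : Fin (k + 2) → ℝ), Dat k m u v a b ρ →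
  ∀ (V : Fin (k + 2) → ℝ) (W : Fin (m + 2) → ℝ), (∀ i, 0 < V i) → (∀ j, 0 < W j) →
  (∃ P, Realises (Fin.append u v) (Fin.append V W) P) → Crit k m ρ V (∑ j, W j)

/-- the support numbers, from the criterion (algebra) -/
def SOLVE : Prop := ∀ (k m : ℕ) (ρ : Fin (k + 2) → ℝ) (V : Fin (k + 2) → ℝ) (W : Fin (m + 2) → ℝ)
  (D : ℝ), 0 < D → (∀ i, 0 < V i) → (∀ j, 0 < W j) → Crit k m ρ V (∑ j, W j) →
  ∃ (C t : ℝ) (β : Fin (k + 2) → ℝ) (γ : Fin (m + 2) → ℝ), 0 < t ∧ (∀ i, 0 < β i) ∧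
    (∀ j, 0 < γ j) ∧ t = ∑ i, β i ∧ C * t = ∑ j, γ j + ∑ i, ρ i * β i ∧
    (∃ i j, i ≠ j ∧ ρ i < C ∧ ρ j < C) ∧
    (∀ f, D * V f = volI k m t (fun i => C - ρ i) f (β f)) ∧
    ∀ f, D * W f = volJ k m t (fun i => C - ρ i) (γ f)

/-- the facets of `PH` have interior points, `PH` is bounded -/
def FACE : Prop := ∀ (k m : ℕ) (u : Fin (k + 2) → E (k + m + 2)) (v : Fin (m + 2) → E (k + m + 2))
  (a : Fin (k + 2) → ℝ) (b : Fin (m + 2) → ℝ) (ρ : Fin (k + 2) → ℝ), Dat k m u v a b ρ →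
  ∀ (h : Fin (k + 2) → ℝ) (h' : Fin (m + 2) → ℝ), (∀ i, 0 < h i) → (∀ j, 0 < h' j) →
  ∀ t C : ℝ, t = ∑ i, a i * h i → C * t = ∑ j, b j * h' j + ∑ i, ρ i * (a i * h i) →
  (∃ i j, i ≠ j ∧ ρ i < C ∧ ρ j < C) →
  Bornology.IsBounded (PH u v h h') ∧
  (∀ f, ∃ y, ⟪u f, y⟫ = h f ∧ (∀ i, i ≠ f → ⟪u i, y⟫ < h i) ∧ ∀ j, ⟪v j, y⟫ < h' j) ∧
  ∀ f, ∃ y, ⟪v f, y⟫ = h' f ∧ (∀ i, ⟪u i, y⟫ < h i) ∧ ∀ j, j ≠ f → ⟪v j, y⟫ < h' j

def BWD : Prop := ∀ (k m : ℕ) (u : Fin (k + 2) → E (k + m + 2)) (v : Fin (m + 2) → E (k + m + 2))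
  (a : Fin (k + 2) → ℝ) (b : Fin (m + 2) → ℝ) (ρ : Fin (k + 2) → ℝ), Dat k m u v a b ρ →
  ∀ (V : Fin (k + 2) → ℝ) (W : Fin (m + 2) → ℝ), (∀ i, 0 < V i) → (∀ j, 0 < W j) →
  Crit k m ρ V (∑ j, W j) → ∃ P, Realises (Fin.append u v) (Fin.append V W) P

end

end Pool.Agent.NP2
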