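import Pool.Agent.Lib.NP2.Props

/-!
# Row SOLVE: the support numbers from the criterion (helper54)
-/

set_option autoImplicit false

open MeasureTheory Set Module
open scoped RealInnerProductSpace Nat
open Pool.Agent.LogMinkowski Pool.Agent.BM

namespace Pool.Agent.NP2

theorem solve (h : POSA) : SOLVE := by
  intro k m ρ V W D hD hV hW hC
  obtain ⟨C, ⟨i₁, i₂, hne, hi₁, hi₂⟩, hw⟩ := hC
  set s : Fin (k + 2) → ℝ := fun i => C - ρ i with hs
  set K : Fin (k + 2) → ℝ := fun f => Mom (m + 1) (fun j => C - ρ (f.succAbove j)) with hK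
  set M : ℝ := Mom m s with hM
  have hM0 : 0 < M := h _ _ _ ⟨i₁, by simp only [hs]; linarith⟩
  have hK0 : ∀ f, 0 < K f := by
    intro f
    have h1 : ∃ j, j ≠ f ∧ ρ j < C := by
      by_cases hf : i₁ = f
      · exact ⟨i₂, fun h2 => hne (hf.trans h2.symm), hi₂⟩
      · exact ⟨i₁, hf, hi₁⟩
    obtain ⟨j, hj, hj'⟩ := h1
    obtain ⟨l, hl⟩ := Fin.exists_succAbove_eq hj
    refine h _ _ _ ⟨l, ?_⟩
    rw [hl]
    linarith
  set A : ℝ := ∑ f, V f / K f with hA
  have hA0 : 0 < A := Finset.sum_pos (fun f _ => div_pos (hV f) (hK0 f)) ⟨0, Finset.mem_univ _⟩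
  have hn0 : (0 : ℝ) < (k : ℝ) + m + 2 := by positivity
  have hf1 : (0 : ℝ) < ((m + 1)! : ℕ) := by exact_mod_cast Nat.factorial_pos _
  have hf2 : (0 : ℝ) < (m ! : ℕ) := by exact_mod_cast Nat.factorial_pos _
  have hff : (((m + 1)! : ℕ) : ℝ) = (m + 1) * (m ! : ℕ) := by
    rw [Nat.factorial_succ]
    push_cast
    ring
  -- the scale
  obtain ⟨th, hth0, hth⟩ : ∃ th : ℝ, 0 < th ∧
      th ^ (k + m + 2) * A ^ (k + m + 1) = D * (((k : ℝ) + m + 2) * ((m + 1)! : ℕ)) := by
    have h1 : 0 < D * (((k : ℝ) + m + 2) * ((m + 1)! : ℕ)) / A ^ (k + m + 1) := by positivity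
    refine ⟨(D * (((k : ℝ) + m + 2) * ((m + 1)! : ℕ)) / A ^ (k + m + 1)) ^
      (((k + m + 2 : ℕ) : ℝ)⁻¹), Real.rpow_pos_of_pos h1 _, ?_⟩
    rw [Real.rpow_inv_natCast_pow h1.le (by omega)]
    field_simp
  have hp : 0 < (th * A) ^ (k + m + 1) := by positivity
  have hkey : D * (((k : ℝ) + m + 2) * ((m + 1)! : ℕ)) = th * (th * A) ^ (k + m + 1) := by
    rw [← hth, mul_pow, pow_succ th (k + m + 1)]
    ring
  refine ⟨C, th * A, fun f => th * (V f / K f),
    fun j => W j * (((k : ℝ) + m + 2) * (m ! : ℕ)) * D / ((th * A) ^ (k + m + 1) * M),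
    by positivity, fun f => mul_pos hth0 (div_pos (hV f) (hK0 f)), fun j => by
      have := hW j
      positivity, ?_, ?_, ⟨i₁, i₂, hne, hi₁, hi₂⟩, ?_, ?_⟩
  · rw [hA, Finset.mul_sum]
  · have h1 : ∑ j, W j * (((k : ℝ) + m + 2) * (m ! : ℕ)) * D / ((th * A) ^ (k + m + 1) * M) =
        (∑ j, W j) * ((((k : ℝ) + m + 2) * (m ! : ℕ)) * D / ((th * A) ^ (k + m + 1) * M)) := by
      rw [Finset.sum_mul]
      refine Finset.sum_congr rfl fun j _ => ?_
      ring
    have h2 : (∑ j, W j) * ((((k : ℝ) + m + 2) * (m ! : ℕ)) * D / ((th * A) ^ (k + m + 1) * M)) =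
        th * ∑ i, V i * (C - ρ i) / K i := by
      rw [hw]
      have h3 : (m + 1) * M * (∑ i, V i * (C - ρ i) / K i) *
          ((((k : ℝ) + m + 2) * (m ! : ℕ)) * D / ((th * A) ^ (k + m + 1) * M)) =
          (∑ i, V i * (C - ρ i) / K i) * ((D * (((k : ℝ) + m + 2) * ((m + 1) * (m ! : ℕ)))) /
            (th * A) ^ (k + m + 1)) := by
        field_simp
      rw [h3, ← hff, hkey]
      field_simp
    rw [h1, h2, hA, Finset.mul_sum, Finset.mul_sum, Finset.mul_sum, ← Finset.sum_add_distrib]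
    refine Finset.sum_congr rfl fun f _ => ?_
    ring
  · intro f
    have hKf := hK0 f
    unfold volI
    rw [eq_div_iff (by positivity)]
    have h1 : Mom (m + 1) (fun i => (fun i => C - ρ i) (f.succAbove i)) = K f := rfl
    rw [h1]
    have h2 : th * (V f / K f) * (th * A) ^ (k + m + 1) * K f =
        V f * (th * (th * A) ^ (k + m + 1)) := by
      field_simp
    rw [h2, ← hkey]
    ring
  · intro f
    unfold volJ
    rw [eq_div_iff (by positivity)]
    have h1 : Mom m (fun i => C - ρ i) = M := rfl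
    rw [h1]
    field_simp

end Pool.Agent.NP2
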