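import Pool.Agent.Lib.NP2.Props

/-!
# Row VOL: the cone volumes of the polytope
-/

set_option autoImplicit false

open MeasureTheory Set Module
open scoped RealInnerProductSpace Nat
open Pool.Agent.LogMinkowski Pool.Agent.BM

namespace Pool.Agent.NP2

theorem image_coneOver {E F : Type} [AddCommGroup E] [Module ℝ E] [AddCommGroup F] [Module ℝ F]
    (T : E → F) (hT : ∀ (o y : E) (r : ℝ), T (r • o + (1 - r) • y) = r • T o + (1 - r) • T y)
    (o : E) (S : Set E) : T '' coneOver o S = coneOver (T o) (T '' S) := by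
  ext z
  constructor
  · rintro ⟨_, ⟨⟨r, y⟩, ⟨hr, hy⟩, rfl⟩, rfl⟩
    exact ⟨(r, T y), ⟨hr, mem_image_of_mem T hy⟩, (hT o y r).symm⟩
  · rintro ⟨⟨r, _⟩, ⟨hr, ⟨y, hy, rfl⟩⟩, rfl⟩
    exact ⟨_, ⟨(r, y), ⟨hr, hy⟩, rfl⟩, hT o y r⟩

theorem vol (hc : CHART) (h1 : MODI) (h2 : MODJ) (h3 : MODI0) (h4 : MODJ0) : VOL := by
  intro k m u v a b ρ hdat
  obtain ⟨D, hD, H⟩ := hc k m u v a b ρ hdat
  refine ⟨D, hD, fun h h' hh hh' t C ht hC => ?_⟩
  obtain ⟨hbij, haff, hvol, hco⟩ := H h h'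
  set Ψ := Psi u v a b h h' with hΨ
  set s : Fin (k + 2) → ℝ := fun i => C - ρ i with hs
  have hap := hdat.apos
  have hbp := hdat.bpos
  have htpos : 0 < t := by
    rw [ht]
    exact Finset.sum_pos (fun i _ => mul_pos (hap i) (hh i)) Finset.univ_nonempty
  have hA : ∀ y, a 0 * (h 0 - ⟪u 0, y⟫) = t - ∑ i, (Ψ y).1 i := fun y => by
    rw [(hco y).1, ← ht]
  have hB : ∀ y, b 0 * (h' 0 - ⟪v 0, y⟫) = affT t s (Ψ y).1 - ∑ j, (Ψ y).2 j := fun y => by
    rw [(hco y).2, ← hC, ← ht, affT]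
    have e : ∑ i, s (Fin.succ i) * (Ψ y).1 i =
        C * ∑ i, (Ψ y).1 i - ∑ i, ρ (Fin.succ i) * (Ψ y).1 i := by
      rw [Finset.mul_sum, ← Finset.sum_sub_distrib]
      exact Finset.sum_congr rfl fun i _ => by rw [hs]; ring
    rw [e, hs]
    ring
  have hu1 : ∀ y i, (Ψ y).1 i = a (Fin.succ i) * (h (Fin.succ i) - ⟪u (Fin.succ i), y⟫) :=
    fun _ _ => rfl
  have hv1 : ∀ y j, (Ψ y).2 j = b (Fin.succ j) * (h' (Fin.succ j) - ⟪v (Fin.succ j), y⟫) :=
    fun _ _ => rfl
  have hmem : ∀ y, y ∈ PH u v h h' ↔ Ψ y ∈ MP k m t s := by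
    intro y
    have c1 : (∀ i, ⟪u i, y⟫ ≤ h i) ↔ (∀ i, 0 ≤ (Ψ y).1 i) ∧ ∑ i, (Ψ y).1 i ≤ t := by
      rw [Fin.forall_fin_succ, and_comm]
      refine and_congr (forall_congr' fun i => ?_) ?_
      · rw [hu1, mul_nonneg_iff_of_pos_left (hap _), sub_nonneg]
      · rw [← sub_nonneg, ← mul_nonneg_iff_of_pos_left (hap 0), hA, sub_nonneg]
    have c2 : (∀ j, ⟪v j, y⟫ ≤ h' j) ↔
        (∀ j, 0 ≤ (Ψ y).2 j) ∧ ∑ j, (Ψ y).2 j ≤ affT t s (Ψ y).1 := by
      rw [Fin.forall_fin_succ, and_comm]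
      refine and_congr (forall_congr' fun j => ?_) ?_
      · rw [hv1, mul_nonneg_iff_of_pos_left (hbp _), sub_nonneg]
      · rw [← sub_nonneg, ← mul_nonneg_iff_of_pos_left (hbp 0), hB, sub_nonneg]
    show (_ ∧ _) ↔ (_ ∧ _ ∧ _ ∧ _)
    rw [c1, c2, and_assoc]
  have key : ∀ (P : E (k + m + 2) → Prop) (Q : (Fin (k + 1) → ℝ) × (Fin (m + 1) → ℝ) → Prop),
      (∀ y, P y ↔ Q (Ψ y)) →
      D * (volume (coneOver 0 (PH u v h h' ∩ {y | P y}))).toReal =
        (volume (coneOver (Ψ 0) (MP k m t s ∩ {p | Q p}))).toReal := by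
    intro P Q hPQ
    have e : PH u v h h' ∩ {y | P y} = Ψ ⁻¹' (MP k m t s ∩ {p | Q p}) := by
      ext y
      exact and_congr (hmem y) (hPQ y)
    have e2 : Ψ '' coneOver 0 (PH u v h h' ∩ {y | P y}) =
        coneOver (Ψ 0) (MP k m t s ∩ {p | Q p}) := by
      rw [image_coneOver Ψ haff, e, image_preimage_eq _ hbij.surjective]
    rw [← e2, hvol, ENNReal.toReal_mul, ENNReal.toReal_ofReal hD.le]
  have hA0 : a 0 * h 0 = t - ∑ i, (Ψ 0).1 i := by
    rw [← hA, inner_zero_right, sub_zero]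
  have hB0 : b 0 * h' 0 = affT t s (Ψ 0).1 - ∑ j, (Ψ 0).2 j := by
    rw [← hB, inner_zero_right, sub_zero]
  constructor
  · intro f
    refine Fin.cases ?_ (fun i => ?_) f
    · rw [key (fun y => ⟪u 0, y⟫ = h 0) (fun p => ∑ i, p.1 i = t), h3 k m t s htpos, hA0]
      · have := mul_pos (hap 0) (hh 0)
        rw [hA0] at this
        linarith
      · intro y
        have := hA y
        constructor
        · intro hy
          rw [hy, sub_self, mul_zero] at this
          linarith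
        · intro hy
          rw [hy, sub_self] at this
          have := (mul_eq_zero.1 this).resolve_left (hap 0).ne'
          linarith
    · have hpos : 0 < (Ψ 0).1 i := by
        rw [hu1, inner_zero_right, sub_zero]
        exact mul_pos (hap _) (hh _)
      rw [key (fun y => ⟪u i.succ, y⟫ = h i.succ) (fun p => p.1 i = 0),
        h1 k m t s htpos i _ hpos, hu1, inner_zero_right, sub_zero]
      intro y
      rw [hu1, mul_eq_zero, or_iff_right (hap _).ne', sub_eq_zero, eq_comm]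
  · intro f
    refine Fin.cases ?_ (fun j => ?_) f
    · rw [key (fun y => ⟪v 0, y⟫ = h' 0) (fun p => ∑ j, p.2 j = affT t s p.1),
        h4 k m t s htpos, hB0]
      · have := mul_pos (hbp 0) (hh' 0)
        rw [hB0] at this
        linarith
      · intro y
        have := hB y
        constructor
        · intro hy
          rw [hy, sub_self, mul_zero] at this
          linarith
        · intro hy
          rw [hy, sub_self] at this
          have := (mul_eq_zero.1 this).resolve_left (hbp 0).ne'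
          linarith
    · have hpos : 0 < (Ψ 0).2 j := by
        rw [hv1, inner_zero_right, sub_zero]
        exact mul_pos (hbp _) (hh' _)
      rw [key (fun y => ⟪v j.succ, y⟫ = h' j.succ) (fun p => p.2 j = 0),
        h2 k m t s htpos j _ hpos, hv1, inner_zero_right, sub_zero]
      intro y
      rw [hv1, mul_eq_zero, or_iff_right (hbp _).ne', sub_eq_zero, eq_comm]

end Pool.Agent.NP2
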